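import Pool.Agent.H15.SR.Defs

namespace Pool.Agent.H15.SR

open SimpleGraph in
/-- `Arrows` only depends on the target up to an adjacency preserving injection. -/
theorem Arrows.of_map {V W W' : Type} {k : ℕ} {G : SimpleGraph V} {H : SimpleGraph W}
    {H' : SimpleGraph W'} (φ : W' → W) (hφ : Function.Injective φ)
    (hadj : ∀ x y, H'.Adj x y → H.Adj (φ x) (φ y)) (h : Arrows k G H) : Arrows k G H' := by
  intro c
  obtain ⟨b, f, hf, hc⟩ := h c
  exact ⟨b, f ∘ φ, hf.comp hφ, fun x y hxy => hc _ _ (hadj x y hxy)⟩

/-- A monochromatic `gridG 2 n` is a monochromatic `n × n` grid. -/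
theorem sizeRamsey_box (k n : ℕ) :
    sizeRamsey k (SimpleGraph.pathGraph n □ SimpleGraph.pathGraph n) = sizeRamsey k (gridG 2 n) := by
  have h1 : ∀ (N : ℕ) (G : SimpleGraph (Fin N)),
      Arrows k G (SimpleGraph.pathGraph n □ SimpleGraph.pathGraph n) ↔ Arrows k G (gridG 2 n) := by
    intro N G
    constructor
    · refine Arrows.of_map (fun g => (g 0, g 1)) ?_ ?_
      · intro f g h
        simp only [Prod.mk.injEq] at h
        funext i
        fin_cases i
        · exact h.1
        · exact h.2
      · rintro f g ⟨j, hj, hv⟩
        rw [SimpleGraph.boxProd_adj]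
        simp only [SimpleGraph.pathGraph_adj]
        fin_cases j
        · left
          exact ⟨hv, hj 1 (by decide)⟩
        · right
          exact ⟨hv, hj 0 (by decide)⟩
    · refine Arrows.of_map (fun p => ![p.1, p.2]) ?_ ?_
      · rintro ⟨a, b⟩ ⟨c, d⟩ h
        have h0 := congrFun h 0
        have h1 := congrFun h 1
        simp only [Matrix.cons_val_zero, Matrix.cons_val_one] at h0 h1
        rw [h0, h1]
      · rintro ⟨a, b⟩ ⟨c, d⟩ h
        rw [SimpleGraph.boxProd_adj] at h
        simp only [SimpleGraph.pathGraph_adj] at h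
        rcases h with ⟨h, he⟩ | ⟨h, he⟩
        · refine ⟨0, ?_, by simpa using h⟩
          intro i hi
          fin_cases i
          · exact absurd rfl hi
          · simpa using he
        · refine ⟨1, ?_, by simpa using h⟩
          intro i hi
          fin_cases i
          · simpa using he
          · exact absurd rfl hi
  unfold sizeRamsey
  simp only [h1]


end Pool.Agent.H15.SR
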