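import Mathlib

/-!
# SR.Cnt: counters

`cnt m u a` is the number of `a' < a` with `a' % m = u` (for `u < m`); `up c b` is the least integer `≥ c` of parity `b`.
-/

namespace Pool.Agent.H15.SR

/-- Number of `a' < a` congruent to `u` modulo `m` (for `u < m`). -/
def cnt (m u a : ℕ) : ℕ := (a + (m - 1 - u)) / m

/-- Parity as a Boolean. -/
def par (c : ℕ) : Bool := decide (c % 2 = 1)

/-- The least integer `≥ c` whose parity is `b`. -/
def up (c : ℕ) (b : Bool) : ℕ := if par c = b then c else c + 1

theorem up_par (c : ℕ) : up c (par c) = c := by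
  simp [up]

theorem par_succ (c : ℕ) : par (c + 1) = !par c := by
  unfold par
  rcases Nat.mod_two_eq_zero_or_one c with h | h
  · have h2 : (c + 1) % 2 = 1 := by omega
    simp [h, h2]
  · have h2 : (c + 1) % 2 = 0 := by omega
    simp [h, h2]

theorem up_par_succ (c : ℕ) : up c (par (c + 1)) = c + 1 := by
  unfold up
  rw [par_succ]
  cases par c <;> simp

theorem up_eq (c : ℕ) (b : Bool) : up c b = c ∨ up c b = c + 1 := by
  unfold up
  split_ifs
  · left; rfl
  · right; rfl

theorem cnt_succ {m u : ℕ} (hu : u < m) (a : ℕ) :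
    cnt m u (a + 1) = cnt m u a + if a % m = u then 1 else 0 := by
  unfold cnt
  have h1 : a + 1 + (m - 1 - u) = (a + (m - 1 - u)) + 1 := by ring
  rw [h1, Nat.succ_div]
  congr 1
  have h2 : a + (m - 1 - u) + 1 = a + (m - u) := by omega
  rw [h2]
  have h3 : (m ∣ a + (m - u)) ↔ a % m = u := by
    constructor
    · intro h
      have hm : m * (a / m) + a % m = a := Nat.div_add_mod a m
      have h4 : m ∣ a % m + (m - u) := by
        have h5 : m ∣ m * (a / m) + (a % m + (m - u)) := by
          rw [← Nat.add_assoc, hm]; exact h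
        exact (Nat.dvd_add_right (Dvd.intro _ rfl)).1 h5
      have h6 : a % m < m := Nat.mod_lt _ (by omega)
      obtain ⟨t, ht⟩ := h4
      have h7 : t = 1 := by
        have h8 : 0 < t := by
          rcases Nat.eq_zero_or_pos t with h | h
          · subst h; omega
          · exact h
        have h9 : t < 2 := by
          by_contra hc
          have : m * 2 ≤ m * t := Nat.mul_le_mul_left m (by omega)
          omega
        omega
      subst h7
      omega
    · intro h
      have hm : m * (a / m) + a % m = a := Nat.div_add_mod a m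
      refine ⟨a / m + 1, ?_⟩
      rw [Nat.mul_add, Nat.mul_one]
      omega
  by_cases h : a % m = u
  · rw [if_pos h, if_pos (h3.2 h)]
  · rw [if_neg h, if_neg (fun hh => h (h3.1 hh))]

theorem cnt_add {m : ℕ} (hm : 0 < m) (u a : ℕ) : cnt m u (a + m) = cnt m u a + 1 := by
  unfold cnt
  have h1 : a + m + (m - 1 - u) = (a + (m - 1 - u)) + m := by ring
  rw [h1, Nat.add_div_right _ hm]

theorem cnt_mono (m u : ℕ) {a b : ℕ} (h : a ≤ b) : cnt m u a ≤ cnt m u b := by
  unfold cnt
  exact Nat.div_le_div_right (by omega)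

theorem cnt_inj_aux {m : ℕ} {a a' : ℕ} (h : ∀ u, u < m → par (cnt m u a) = par (cnt m u a'))
    {u₀ : ℕ} (hu₀ : u₀ < m) (h₀ : cnt m u₀ a = cnt m u₀ a') (hlt : a < a') : False := by
  have hm : 0 < m := by omega
  have h1 : a' < a + m := by
    by_contra hc
    have h2 := cnt_mono m u₀ (show a + m ≤ a' by omega)
    rw [cnt_add hm] at h2
    omega
  have hu : a % m < m := Nat.mod_lt _ hm
  have h3 : cnt m (a % m) (a + 1) = cnt m (a % m) a + 1 := by
    rw [cnt_succ hu, if_pos rfl]
  have h4 : cnt m (a % m) (a + 1) ≤ cnt m (a % m) a' := cnt_mono m _ (by omega)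
  have h5 : cnt m (a % m) a' ≤ cnt m (a % m) a + 1 := by
    rw [← cnt_add hm]
    exact cnt_mono m _ (by omega)
  have h6 : cnt m (a % m) a' = cnt m (a % m) a + 1 := by omega
  have h7 := h _ hu
  rw [h6, par_succ] at h7
  cases hb : par (cnt m (a % m) a) <;> rw [hb] at h7 <;> simp at h7

/-- If all counters have equal parities and one counter is equal then `a = a'`: for `a < a'` the equality of the
counter `u₀` forces `a' - a < m`, and then the counter `a % m` has increased by exactly one. -/
theorem cnt_inj {m : ℕ} {a a' : ℕ} (h : ∀ u, u < m → par (cnt m u a) = par (cnt m u a'))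
    {u₀ : ℕ} (hu₀ : u₀ < m) (h₀ : cnt m u₀ a = cnt m u₀ a') : a = a' := by
  rcases lt_trichotomy a a' with hlt | heq | hgt
  · exact (cnt_inj_aux h hu₀ h₀ hlt).elim
  · exact heq
  · exact (cnt_inj_aux (fun u hu => (h u hu).symm) hu₀ h₀.symm hgt).elim

/-- A value of a counter is taken at most `m` times. -/
theorem cnt_fiber {m u : ℕ} (hu : u < m) (v : ℕ) (n : ℕ) :
    Set.ncard {a : Fin n | cnt m u (a : ℕ) = v} ≤ m := by
  have hm : 0 < m := by omega
  have key : ∀ a : Fin n, a ∈ {a : Fin n | cnt m u (a : ℕ) = v} →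
      v * m ≤ (a : ℕ) + (m - 1 - u) ∧ (a : ℕ) + (m - 1 - u) < v * m + m := by
    intro a ha
    have ha' : ((a : ℕ) + (m - 1 - u)) / m = v := ha
    constructor
    · rw [← ha']; exact Nat.div_mul_le_self _ _
    · rw [← ha']; exact Nat.lt_div_mul_add hm
  have h1 : Set.ncard {a : Fin n | cnt m u (a : ℕ) = v} ≤ ((Finset.range m : Finset ℕ) : Set ℕ).ncard := by
    apply Set.ncard_le_ncard_of_injOn (fun a : Fin n => (a : ℕ) + (m - 1 - u) - v * m)
    · intro a ha
      have := key a ha
      simp only [Finset.coe_range, Set.mem_Iio]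
      omega
    · intro a ha b hb hab
      have h1 := key a ha
      have h2 := key b hb
      apply Fin.ext
      simp only at hab
      omega
  rwa [Set.ncard_coe_finset, Finset.card_range] at h1

/-- The same for `up` of the counter: at most `2 * m` times. -/
theorem up_cnt_fiber {m u : ℕ} (hu : u < m) (b : Bool) (v : ℕ) (n : ℕ) :
    Set.ncard {a : Fin n | up (cnt m u (a : ℕ)) b = v} ≤ 2 * m := by
  have h1 : {a : Fin n | up (cnt m u (a : ℕ)) b = v} ⊆
      {a : Fin n | cnt m u (a : ℕ) = v} ∪ {a : Fin n | cnt m u (a : ℕ) = v - 1} := by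
    intro a ha
    have ha' : up (cnt m u (a : ℕ)) b = v := ha
    rcases up_eq (cnt m u (a : ℕ)) b with h | h
    · left
      show cnt m u (a : ℕ) = v
      omega
    · right
      show cnt m u (a : ℕ) = v - 1
      omega
  calc Set.ncard {a : Fin n | up (cnt m u (a : ℕ)) b = v}
      ≤ Set.ncard ({a : Fin n | cnt m u (a : ℕ) = v} ∪ {a : Fin n | cnt m u (a : ℕ) = v - 1}) :=
        Set.ncard_le_ncard h1 (Set.toFinite _)
    _ ≤ Set.ncard {a : Fin n | cnt m u (a : ℕ) = v} + Set.ncard {a : Fin n | cnt m u (a : ℕ) = v - 1} :=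
        Set.ncard_union_le _ _
    _ ≤ m + m := Nat.add_le_add (cnt_fiber hu _ _) (cnt_fiber hu _ _)
    _ = 2 * m := by ring

end Pool.Agent.H15.SR
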