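import Pool.Agent.H15.SR.Defs
import Pool.Agent.H15.SR.Cnt

/-!
# SR.Embed: the grid (section 6 of the paper)

Counter of type `i` at the site `f`: `ctr ι f i = cnt m u (f j)` if `i = ι (j, u)`, and `0` if `i` is not in the range.
-/

namespace Pool.Agent.H15.SR

open Classical in
/-- The counter of type `i` at the site `f`. -/
noncomputable def ctr {d δ m n : ℕ} (ι : Fin δ × Fin m → Fin d) (f : Fin δ → Fin n) (i : Fin d) : ℕ :=
  if h : ∃ x : Fin δ × Fin m, ι x = i then cnt m (h.choose.2 : ℕ) (f h.choose.1 : ℕ) else 0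

theorem ctr_apply {d δ m n : ℕ} {ι : Fin δ × Fin m → Fin d} (hι : Function.Injective ι)
    (f : Fin δ → Fin n) (x : Fin δ × Fin m) : ctr ι f (ι x) = cnt m (x.2 : ℕ) (f x.1 : ℕ) := by
  unfold ctr
  have h : ∃ y : Fin δ × Fin m, ι y = ι x := ⟨x, rfl⟩
  rw [dif_pos h]
  have h2 : h.choose = x := hι h.choose_spec
  rw [h2]

theorem ctr_of_not {d δ m n : ℕ} {ι : Fin δ × Fin m → Fin d}
    (f : Fin δ → Fin n) (i : Fin d) (h : ¬ ∃ x : Fin δ × Fin m, ι x = i) : ctr ι f i = 0 := by
  unfold ctr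
  rw [dif_neg h]

/-- Parity vector of a site. -/
noncomputable def Pv {d δ m n : ℕ} (ι : Fin δ × Fin m → Fin d) (f : Fin δ → Fin n) : Fin d → Bool :=
  fun i => par (ctr ι f i)

/-- The symbol of class `(e, ε)` used by the site `f`. -/
noncomputable def sy {r d δ m n : ℕ} (ι : Fin δ × Fin m → Fin d) (a : Cls r d) (f : Fin δ → Fin n) :
    Fin r → ℕ := fun k => up (ctr ι f (a.1 k)) (a.2 k)

/-- A step of the grid raises exactly one counter, by one. -/
theorem ctr_step {d δ m n : ℕ} {ι : Fin δ × Fin m → Fin d} (hι : Function.Injective ι) (hm : 0 < m)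
    {f g : Fin δ → Fin n} {j : Fin δ} (h1 : ∀ i, i ≠ j → f i = g i) (h2 : (f j : ℕ) + 1 = g j) :
    ∃ x : Fin δ × Fin m, ctr ι g (ι x) = ctr ι f (ι x) + 1 ∧ ∀ i, i ≠ ι x → ctr ι g i = ctr ι f i := by
  refine ⟨(j, ⟨(f j : ℕ) % m, Nat.mod_lt _ hm⟩), ?_, ?_⟩
  · rw [ctr_apply hι, ctr_apply hι]
    simp only
    rw [← h2, cnt_succ (Nat.mod_lt _ hm), if_pos rfl]
  · intro i hi
    by_cases h : ∃ x : Fin δ × Fin m, ι x = i
    · obtain ⟨x, rfl⟩ := h
      rw [ctr_apply hι, ctr_apply hι]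
      by_cases hx : x.1 = j
      · rw [hx, ← h2, cnt_succ x.2.2]
        have h3 : ¬ ((f j : ℕ) % m = (x.2 : ℕ)) := by
          intro hc
          apply hi
          congr 1
          apply Prod.ext
          · exact hx
          · apply Fin.ext
            exact hc.symm
        rw [if_neg h3, Nat.add_zero]
      · rw [h1 _ hx]
    · rw [ctr_of_not _ _ h, ctr_of_not _ _ h]

/-- `up` of the old counter with the new parity is the new counter. -/
theorem up_step {d δ m n : ℕ} {ι : Fin δ × Fin m → Fin d} (hι : Function.Injective ι) (hm : 0 < m)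
    {f g : Fin δ → Fin n} {j : Fin δ} (h1 : ∀ i, i ≠ j → f i = g i) (h2 : (f j : ℕ) + 1 = g j)
    (i : Fin d) : up (ctr ι f i) (Pv ι g i) = ctr ι g i := by
  obtain ⟨x, hx1, hx2⟩ := ctr_step hι hm h1 h2
  unfold Pv
  by_cases hi : i = ι x
  · rw [hi, hx1, up_par_succ]
  · rw [hx2 i hi, up_par]

/-- Two sites with the same parity vector and the same symbol in an active relevant class are equal. -/
theorem site_inj {r d δ m n : ℕ} {ι : Fin δ × Fin m → Fin d} (hι : Function.Injective ι)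
    {e : Coord r d} (he : Rel ι e) {f f' : Fin δ → Fin n} (hP : Pv ι f = Pv ι f')
    (hs : sy ι (e, fun k => Pv ι f (e k)) f = sy ι (e, fun k => Pv ι f (e k)) f') : f = f' := by
  funext j
  apply Fin.ext
  obtain ⟨k, u, hk⟩ := he j
  have h0 := congrFun hs k
  simp only [sy] at h0
  have e1 : Pv ι f (e k) = par (ctr ι f (e k)) := rfl
  have e2 : Pv ι f (e k) = par (ctr ι f' (e k)) := congrFun hP (e k)
  have h3 : up (ctr ι f (e k)) (Pv ι f (e k)) = ctr ι f (e k) := by
    rw [e1, up_par]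
  have h4 : up (ctr ι f' (e k)) (Pv ι f (e k)) = ctr ι f' (e k) := by
    rw [e2, up_par]
  rw [h3, h4, hk, ctr_apply hι, ctr_apply hι] at h0
  refine cnt_inj (m := m) ?_ u.2 h0
  intro v hv
  have h5 := congrFun hP (ι (j, ⟨v, hv⟩))
  unfold Pv at h5
  rw [ctr_apply hι, ctr_apply hι] at h5
  exact h5

/-- A symbol of a relevant class is used by at most `(2 * m) ^ δ` sites. -/
theorem site_fiber {r d δ m n : ℕ} {ι : Fin δ × Fin m → Fin d} (hι : Function.Injective ι)
    {e : Coord r d} (he : Rel ι e) (ε : Fin r → Bool) (s : Fin r → ℕ) :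
    Set.ncard {f : Fin δ → Fin n | sy ι (e, ε) f = s} ≤ (2 * m) ^ δ := by
  classical
  choose kk uu hku using he
  have h1 : {f : Fin δ → Fin n | sy ι (e, ε) f = s} ⊆
      ((Fintype.piFinset (fun j : Fin δ =>
        (Finset.univ.filter (fun a : Fin n => up (cnt m (uu j : ℕ) (a : ℕ)) (ε (kk j)) = s (kk j)))) :
        Finset (Fin δ → Fin n)) : Set (Fin δ → Fin n)) := by
    intro f hf
    have hf' : sy ι (e, ε) f = s := hf
    rw [Finset.mem_coe, Fintype.mem_piFinset]
    intro j
    rw [Finset.mem_filter]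
    refine ⟨Finset.mem_univ _, ?_⟩
    have h := congrFun hf' (kk j)
    simp only [sy] at h
    rw [hku j, ctr_apply hι] at h
    exact h
  refine (Set.ncard_le_ncard h1 (Finset.finite_toSet _)).trans ?_
  rw [Set.ncard_coe_finset, Fintype.card_piFinset]
  calc ∏ j : Fin δ, (Finset.univ.filter
        (fun a : Fin n => up (cnt m (uu j : ℕ) (a : ℕ)) (ε (kk j)) = s (kk j))).card
      ≤ ∏ _j : Fin δ, (2 * m) := by
        apply Finset.prod_le_prod'
        intro j _
        have h2 := up_cnt_fiber (m := m) (u := (uu j : ℕ)) (uu j).2 (ε (kk j)) (s (kk j)) n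
        have h3 : {a : Fin n | up (cnt m (uu j : ℕ) (a : ℕ)) (ε (kk j)) = s (kk j)} =
            ((Finset.univ.filter
        (fun a : Fin n => up (cnt m (uu j : ℕ) (a : ℕ)) (ε (kk j)) = s (kk j)) : Finset (Fin n)) :
            Set (Fin n)) := by
          ext a
          simp
        rw [h3, Set.ncard_coe_finset] at h2
        exact h2
    _ = (2 * m) ^ δ := by simp


end Pool.Agent.H15.SR
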