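import Mathlib

/-!
# SR.Cube: the cube lemma (pigeonhole only)

Induction on `d`, generalising the colour types.  Step `d → d+1`: let `S := Nat.card (κ₁ × (Fin d → κ₂)) + 1` be
the number of layers of the new coordinate `0`.  Apply the induction hypothesis to the colour types
`κ₁' := (Fin S → κ₁) × (Fin S → Fin S → κ₂)`, `κ₂' := Fin S → κ₂`,
`f' z := (fun s => f (cons s z), fun s s' => g 0 (cons s z) (cons s' z))`,
`g' i z z' := fun s => g i.succ (cons s z) (cons s z')`; then two layers `s₁ ≠ s₂` have the same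
`(vertex colour, colours of the d directions)`; take `α := cons s₁ α'`, `β := cons s₂ β'`, `T := max T' S`.
-/

namespace Pool.Agent.H15.SR

theorem cube_lemma (d : ℕ) : ∀ (κ₁ κ₂ : Type) [Finite κ₁] [Finite κ₂], ∃ T : ℕ,
    ∀ (f : (Fin d → ℕ) → κ₁) (g : Fin d → (Fin d → ℕ) → (Fin d → ℕ) → κ₂),
      ∃ α β : Fin d → ℕ, (∀ i, α i < T ∧ β i < T ∧ α i ≠ β i) ∧
        (∀ p p' : Fin d → ℕ, (∀ i, p i = α i ∨ p i = β i) → (∀ i, p' i = α i ∨ p' i = β i) →
          f p = f p') ∧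
        ∃ χ : Fin d → κ₂, ∀ (i : Fin d) (p : Fin d → ℕ), (∀ j, p j = α j ∨ p j = β j) →
          p i = α i → g i p (Function.update p i (β i)) = χ i := by
  induction d with
  | zero =>
    intro κ₁ κ₂ _ _
    refine ⟨0, fun f g => ⟨Fin.elim0, Fin.elim0, fun i => i.elim0, ?_, fun i => i.elim0, fun i => i.elim0⟩⟩
    intro p p' _ _
    rw [Subsingleton.elim p p']
  | succ d ih =>
    intro κ₁ κ₂ _ _
    obtain ⟨S, hS⟩ : ∃ S : ℕ, S = Nat.card (κ₁ × (Fin d → κ₂)) + 1 := ⟨_, rfl⟩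
    obtain ⟨T', hT'⟩ := ih ((Fin S → κ₁) × (Fin S → Fin S → κ₂)) (Fin S → κ₂)
    refine ⟨max T' S, fun f g => ?_⟩
    obtain ⟨α, β, hαβ, hf, χ, hχ⟩ := hT'
      (fun z => (fun s => f (Fin.cons (s : ℕ) z), fun s s' => g 0 (Fin.cons (s : ℕ) z) (Fin.cons (s' : ℕ) z)))
      (fun i z z' => fun s => g i.succ (Fin.cons (s : ℕ) z) (Fin.cons (s : ℕ) z'))
    have hni : ¬ Function.Injective (fun s : Fin S => ((f (Fin.cons (s : ℕ) α), fun i => χ i s) :
        κ₁ × (Fin d → κ₂))) := by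
      intro hinj
      have h1 := Nat.card_le_card_of_injective _ hinj
      rw [Nat.card_eq_fintype_card, Fintype.card_fin] at h1
      omega
    simp only [Function.Injective, not_forall] at hni
    obtain ⟨s₁, s₂, hs, hne⟩ := hni
    have hs1 : f (Fin.cons (s₁ : ℕ) α) = f (Fin.cons (s₂ : ℕ) α) := congrArg Prod.fst hs
    have hs2 : ∀ i, χ i s₁ = χ i s₂ := fun i => congrFun (congrArg Prod.snd hs) i
    have hne' : (s₁ : ℕ) ≠ (s₂ : ℕ) := fun h => hne (Fin.ext h)
    have hα : ∀ i, α i = α i ∨ α i = β i := fun i => Or.inl rfl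
    -- corners of the new cube
    have hcorner : ∀ p : Fin (d + 1) → ℕ, (∀ i, p i = (Fin.cons (s₁ : ℕ) α : Fin (d + 1) → ℕ) i ∨
        p i = (Fin.cons (s₂ : ℕ) β : Fin (d + 1) → ℕ) i) →
        (p 0 = s₁ ∨ p 0 = s₂) ∧ ∀ i, Fin.tail p i = α i ∨ Fin.tail p i = β i := by
      intro p hp
      refine ⟨?_, fun i => ?_⟩
      · simpa using hp 0
      · simpa [Fin.tail] using hp i.succ
    have key : ∀ p : Fin (d + 1) → ℕ, (∀ i, p i = (Fin.cons (s₁ : ℕ) α : Fin (d + 1) → ℕ) i ∨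
        p i = (Fin.cons (s₂ : ℕ) β : Fin (d + 1) → ℕ) i) → f p = f (Fin.cons (s₁ : ℕ) α) := by
      intro p hp
      obtain ⟨h0, ht⟩ := hcorner p hp
      have h1 := hf (Fin.tail p) α ht hα
      have h2 : ∀ s : Fin S, f (Fin.cons (s : ℕ) (Fin.tail p)) = f (Fin.cons (s : ℕ) α) := fun s =>
        congrFun (congrArg Prod.fst h1) s
      rw [← Fin.cons_self_tail p]
      rcases h0 with h0 | h0
      · rw [h0]; exact h2 s₁
      · rw [h0, h2 s₂, hs1]
    refine ⟨Fin.cons (s₁ : ℕ) α, Fin.cons (s₂ : ℕ) β, ?_, ?_, Fin.cons (g 0 (Fin.cons (s₁ : ℕ) α)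
      (Fin.cons (s₂ : ℕ) α)) (fun i => χ i s₁), ?_⟩
    · intro i
      refine Fin.cases ?_ (fun i => ?_) i
      · simp only [Fin.cons_zero]
        exact ⟨lt_of_lt_of_le s₁.2 (le_max_right _ _), lt_of_lt_of_le s₂.2 (le_max_right _ _), hne'⟩
      · simp only [Fin.cons_succ]
        obtain ⟨h1, h2, h3⟩ := hαβ i
        exact ⟨lt_of_lt_of_le h1 (le_max_left _ _), lt_of_lt_of_le h2 (le_max_left _ _), h3⟩
    · intro p p' hp hp'
      rw [key p hp, key p' hp']
    · intro i p hp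
      obtain ⟨h0, ht⟩ := hcorner p hp
      refine Fin.cases ?_ (fun i => ?_) i
      · intro hp0
        simp only [Fin.cons_zero] at hp0 ⊢
        have h1 := hf (Fin.tail p) α ht hα
        have h2 : g 0 (Fin.cons (s₁ : ℕ) (Fin.tail p)) (Fin.cons (s₂ : ℕ) (Fin.tail p)) =
            g 0 (Fin.cons (s₁ : ℕ) α) (Fin.cons (s₂ : ℕ) α) :=
          congrFun (congrFun (congrArg Prod.snd h1) s₁) s₂
        have h3 : p = Fin.cons (s₁ : ℕ) (Fin.tail p) := by
          rw [← hp0, Fin.cons_self_tail]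
        have h4 : Function.update p 0 (s₂ : ℕ) = Fin.cons (s₂ : ℕ) (Fin.tail p) := by
          conv_lhs => rw [h3]
          rw [Fin.update_cons_zero]
        rw [h4, ← h2]
        congr 1
      · intro hpi
        simp only [Fin.cons_succ] at hpi ⊢
        have h1 := hχ i (Fin.tail p) ht hpi
        have h2 : ∀ s : Fin S, g i.succ (Fin.cons (s : ℕ) (Fin.tail p))
            (Fin.cons (s : ℕ) (Function.update (Fin.tail p) i (β i))) = χ i s := fun s => congrFun h1 s
        have h3 : ∀ s : ℕ, p 0 = s → g i.succ p (Function.update p i.succ (β i)) =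
            g i.succ (Fin.cons s (Fin.tail p)) (Fin.cons s (Function.update (Fin.tail p) i (β i))) := by
          intro s h
          rw [Fin.cons_update, ← h, Fin.cons_self_tail]
        rcases h0 with h0 | h0
        · rw [h3 _ h0, h2 s₁]
        · rw [h3 _ h0, h2 s₂, hs2 i]

end Pool.Agent.H15.SR
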