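import Mathlib

/-!
# SR.Defs: arrows, the size Ramsey number, grids, the host graph
-/

namespace Pool.Agent.H15.SR

/-- `Arrows k G H`: every colouring of the edges of `G` with `k` colours contains a monochromatic copy of `H`.
(The colouring is defined on all unordered pairs; only its values on edges of `G` are used.) -/
def Arrows {V W : Type} (k : ℕ) (G : SimpleGraph V) (H : SimpleGraph W) : Prop :=
  ∀ c : Sym2 V → Fin k, ∃ b : Fin k, ∃ f : W → V, Function.Injective f ∧
    ∀ x y, H.Adj x y → G.Adj (f x) (f y) ∧ c s(f x, f y) = b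

/-- The `k`-colour size Ramsey number of a graph: the least number of edges of a finite graph `G` with `G → H`. -/
noncomputable def sizeRamsey {W : Type} (k : ℕ) (H : SimpleGraph W) : ℕ :=
  sInf {e : ℕ | ∃ (N : ℕ) (G : SimpleGraph (Fin N)), G.edgeSet.ncard = e ∧ Arrows k G H}

/-- The `δ`-dimensional grid of side `n`: vertices `Fin δ → Fin n`, adjacent if they differ in exactly one coordinate
and by exactly one in it. -/
def gridG (δ n : ℕ) : SimpleGraph (Fin δ → Fin n) where
  Adj f g := ∃ j, (∀ i, i ≠ j → f i = g i) ∧ ((f j : ℕ) + 1 = g j ∨ (g j : ℕ) + 1 = f j)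
  symm := ⟨by
    rintro f g ⟨j, h1, h2⟩
    exact ⟨j, fun i hi => (h1 i hi).symm, h2.symm⟩⟩
  loopless := ⟨by
    rintro f ⟨j, _, h2⟩
    omega⟩

/-- Coordinates of the host: functions `e : Fin r → Fin d`. -/
abbrev Coord (r d : ℕ) : Type := Fin r → Fin d

/-- Vertices of the host: a cell `p ∈ [T]^d` and a vector `x ∈ [q]^Coord`. -/
abbrev HV (r d T q : ℕ) : Type := (Fin d → Fin T) × (Coord r d → Fin q)

/-- The host graph: a type `i` edge changes the `i`-th entry of the cell and, arbitrarily, the coordinates `e` in which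
`i` occurs. -/
def host (r d T q : ℕ) : SimpleGraph (HV r d T q) where
  Adj v w := ∃ i, v.1 i ≠ w.1 i ∧ (∀ j, j ≠ i → v.1 j = w.1 j) ∧
    ∀ e : Coord r d, (∀ k, e k ≠ i) → v.2 e = w.2 e
  symm := ⟨by
    rintro v w ⟨i, h1, h2, h3⟩
    exact ⟨i, h1.symm, fun j hj => (h2 j hj).symm, fun e he => (h3 e he).symm⟩⟩
  loopless := ⟨by
    rintro v ⟨i, h1, _⟩
    exact h1 rfl⟩

/-- Classes of symbols: `(e, ε)`. -/
abbrev Cls (r d : ℕ) : Type := Coord r d × (Fin r → Bool)

/-- The cell of the subcube with corners `α`, `β`. -/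
def cell {d T : ℕ} (α β : Fin d → Fin T) (P : Fin d → Bool) : Fin d → Fin T :=
  fun i => if P i then β i else α i

/-- The vertex `w_P(z)`. -/
def wv {r d T q : ℕ} (α β : Fin d → Fin T) (P : Fin d → Bool) (z : Cls r d → Fin q) : HV r d T q :=
  (cell α β P, fun e => z (e, fun k => P (e k)))

/-- Good tuples: the colour of the type `i` edges of the cube of `z` is `χ i`. -/
def GoodT {r d T q k : ℕ} (c : Sym2 (HV r d T q) → Fin k) (α β : Fin d → Fin T) (χ : Fin d → Fin k)
    (z : Cls r d → Fin q) : Prop :=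
  ∀ (i : Fin d) (P : Fin d → Bool), P i = false →
    c s(wv α β P z, wv α β (Function.update P i true) z) = χ i

/-- `e` meets every group `I_j = ι (j, ·)`. -/
def Rel {r d δ m : ℕ} (ι : Fin δ × Fin m → Fin d) (e : Coord r d) : Prop :=
  ∀ j : Fin δ, ∃ (k : Fin r) (u : Fin m), e k = ι (j, u)

end Pool.Agent.H15.SR
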