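import Pool.Agent.H15.SR.Defs
import Pool.Agent.H15.SR.Cube

/-!
# SR.Dense: good tuples have positive density (section 2 of the paper)

`T := T' + 1` with `T'` from the cube lemma for `κ₁ = Unit`, `κ₂ = Fin k`.  For
`y : Coord r d × (Fin r → Fin T) → Fin q` and a cell `p` put `v_p(y) := (p, fun e => y (e, fun k => p (e k)))`, colour the
pair `p p'` by `c s(v_p(y), v_p'(y))` (entries of ℕ-valued `p` are read modulo `T`).  Every `y` has a good triple
`(α, β, χ)`; pigeonhole: one triple is good for at least `q^card / (number of triples)` of the `y`.  Goodness depends only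
on `y` composed with the injection `j : Cls r d → Coord r d × (Fin r → Fin T)`,
`j (e, ε) = (e, fun k => if ε k then β (e k) else α (e k))` (injective since `α i ≠ β i`), and `y ↦ y ∘ j` has fibres of
size `q ^ (card - card Cls)`.
-/

namespace Pool.Agent.H15.SR

private def vv {r d T q : ℕ} (y : Coord r d × (Fin r → Fin T) → Fin q) (p : Fin d → Fin T) : HV r d T q :=
  (p, fun e => y (e, fun k => p (e k)))

private def jj {r d T : ℕ} (α β : Fin d → Fin T) (x : Cls r d) : Coord r d × (Fin r → Fin T) :=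
  (x.1, fun k => if x.2 k then β (x.1 k) else α (x.1 k))

private theorem jj_inj {r d T : ℕ} {α β : Fin d → Fin T} (h : ∀ i, α i ≠ β i) :
    Function.Injective (jj (r := r) α β) := by
  rintro ⟨e, ε⟩ ⟨e', ε'⟩ he
  simp only [jj, Prod.mk.injEq] at he
  obtain ⟨h1, h2⟩ := he
  subst h1
  congr 1
  funext k
  have h3 := congrFun h2 k
  have h4 := h (e k)
  cases hε : ε k <;> cases hε' : ε' k <;> simp_all

private theorem vv_eq {r d T q : ℕ} (y : Coord r d × (Fin r → Fin T) → Fin q) (α β : Fin d → Fin T)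
    (P : Fin d → Bool) : vv y (cell α β P) = wv α β P (y ∘ jj α β) := rfl

private theorem exists_triple {r d k T' : ℕ}
    (hT' : ∀ (f : (Fin d → ℕ) → Unit) (g : Fin d → (Fin d → ℕ) → (Fin d → ℕ) → Fin k),
      ∃ α β : Fin d → ℕ, (∀ i, α i < T' ∧ β i < T' ∧ α i ≠ β i) ∧
        (∀ p p' : Fin d → ℕ, (∀ i, p i = α i ∨ p i = β i) → (∀ i, p' i = α i ∨ p' i = β i) →
          f p = f p') ∧
        ∃ χ : Fin d → Fin k, ∀ (i : Fin d) (p : Fin d → ℕ), (∀ j, p j = α j ∨ p j = β j) →
          p i = α i → g i p (Function.update p i (β i)) = χ i)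
    {q : ℕ} (c : Sym2 (HV r d (T' + 1) q) → Fin k) (y : Coord r d × (Fin r → Fin (T' + 1)) → Fin q) :
    ∃ t : (Fin d → Fin (T' + 1)) × (Fin d → Fin (T' + 1)) × (Fin d → Fin k),
      (∀ i, t.1 i ≠ t.2.1 i) ∧ GoodT c t.1 t.2.1 t.2.2 (y ∘ jj t.1 t.2.1) := by
  obtain ⟨α, β, hαβ, _, χ, hχ⟩ := hT' (fun _ => ()) (fun _ p p' =>
    c s(vv y (fun i => Fin.ofNat (T' + 1) (p i)), vv y (fun i => Fin.ofNat (T' + 1) (p' i))))
  refine ⟨(fun i => Fin.ofNat (T' + 1) (α i), fun i => Fin.ofNat (T' + 1) (β i), χ), ?_, ?_⟩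
  · intro i h
    have h1 := congrArg Fin.val h
    simp only [Fin.val_ofNat] at h1
    obtain ⟨h2, h3, h4⟩ := hαβ i
    rw [Nat.mod_eq_of_lt (by omega), Nat.mod_eq_of_lt (by omega)] at h1
    exact h4 h1
  · intro i P hP
    have h1 := hχ i (fun i => if P i then β i else α i) (fun j => by
      by_cases h : P j = true
      · right; simp [h]
      · left; simp [h]) (by simp [hP])
    have h2 : Function.update (fun i => if P i then β i else α i) i (β i) =
        fun j => if (Function.update P i true) j then β j else α j := by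
      funext j
      by_cases hj : j = i
      · subst hj
        simp
      · simp [Function.update_of_ne hj]
    have h3 : ∀ P : Fin d → Bool, (fun i => Fin.ofNat (T' + 1) (if P i then β i else α i)) =
        cell (fun i => Fin.ofNat (T' + 1) (α i)) (fun i => Fin.ofNat (T' + 1) (β i)) P := by
      intro P
      funext j
      simp only [cell]
      split_ifs <;> rfl
    rw [h2] at h1
    simp only at h1
    rw [h3 P, h3 (Function.update P i true), vv_eq, vv_eq] at h1
    exact h1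

private theorem fibre_count {A B : Type} [Fintype A] [Fintype B] {q : ℕ} (j : B → A)
    (hj : Function.Injective j) (hq : 0 < q) (S : Set (B → Fin q)) (c₀ : ℝ)
    (h : c₀ * (q : ℝ) ^ Fintype.card A ≤ Set.ncard {y : A → Fin q | y ∘ j ∈ S}) :
    c₀ * (q : ℝ) ^ Fintype.card B ≤ Set.ncard S := by
  classical
  have hcard : Fintype.card A = Fintype.card B + Fintype.card {x : A // x ∉ Set.range j} := by
    have h1 := Fintype.card_congr (Equiv.sumCompl (fun x : A => x ∈ Set.range j))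
    rw [Fintype.card_sum] at h1
    rw [← h1]
    congr 1
    exact (Fintype.card_congr (Equiv.ofInjective j hj)).symm
  have hle : Set.ncard {y : A → Fin q | y ∘ j ∈ S} ≤
      Set.ncard S * q ^ Fintype.card {x : A // x ∉ Set.range j} := by
    have h1 : Set.ncard {y : A → Fin q | y ∘ j ∈ S} ≤
        Set.ncard (S ×ˢ (Set.univ : Set ({x : A // x ∉ Set.range j} → Fin q))) := by
      refine Set.ncard_le_ncard_of_injOn (fun y => (y ∘ j, fun x => y x.1)) ?_ ?_ (Set.toFinite _)
      · intro y hy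
        exact ⟨hy, Set.mem_univ _⟩
      · intro y _ y' _ hyy
        simp only [Prod.mk.injEq] at hyy
        obtain ⟨h2, h3⟩ := hyy
        funext x
        by_cases hx : x ∈ Set.range j
        · obtain ⟨b, rfl⟩ := hx
          exact congrFun h2 b
        · exact congrFun h3 ⟨x, hx⟩
    refine h1.trans (le_of_eq ?_)
    rw [Set.ncard_prod, Set.ncard_univ, Nat.card_eq_fintype_card, Fintype.card_fun, Fintype.card_fin]
  have hqR : (0 : ℝ) < (q : ℝ) ^ Fintype.card {x : A // x ∉ Set.range j} := by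
    have : (0 : ℝ) < q := by exact_mod_cast hq
    positivity
  have h2 : (Set.ncard {y : A → Fin q | y ∘ j ∈ S} : ℝ) ≤
      Set.ncard S * (q : ℝ) ^ Fintype.card {x : A // x ∉ Set.range j} := by
    exact_mod_cast hle
  have h3 := h.trans h2
  rw [hcard, pow_add, ← mul_assoc] at h3
  exact le_of_mul_le_mul_right h3 hqR

theorem exists_dense (r d k : ℕ) : ∃ T : ℕ, ∃ c₀ : ℝ, 0 < c₀ ∧
    ∀ q : ℕ, 0 < q → ∀ c : Sym2 (HV r d T q) → Fin k,
      ∃ α β : Fin d → Fin T, (∀ i, α i ≠ β i) ∧ ∃ χ : Fin d → Fin k,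
        c₀ * (q : ℝ) ^ Fintype.card (Cls r d) ≤ Set.ncard {z : Cls r d → Fin q | GoodT c α β χ z} := by
  classical
  obtain ⟨T', hT'⟩ := cube_lemma d Unit (Fin k)
  refine ⟨T' + 1, 1 / ((Fintype.card ((Fin d → Fin (T' + 1)) × (Fin d → Fin (T' + 1)) ×
    (Fin d → Fin k)) : ℝ) + 1), by positivity, ?_⟩
  intro q hq c
  have : Nonempty (Fin q) := ⟨⟨0, hq⟩⟩
  choose t ht1 ht2 using fun y => exists_triple hT' c y
  have hne : Nonempty ((Fin d → Fin (T' + 1)) × (Fin d → Fin (T' + 1)) × (Fin d → Fin k)) :=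
    ⟨t (Classical.arbitrary _)⟩
  obtain ⟨N, hN⟩ : ∃ N : ℕ, N = Fintype.card ((Fin d → Fin (T' + 1)) × (Fin d → Fin (T' + 1)) ×
    (Fin d → Fin k)) := ⟨_, rfl⟩
  obtain ⟨A, hA⟩ : ∃ A : ℕ, A = Fintype.card (Coord r d × (Fin r → Fin (T' + 1)) → Fin q) := ⟨_, rfl⟩
  have hApos : 0 < A := by rw [hA]; exact Fintype.card_pos
  have hb : Fintype.card ((Fin d → Fin (T' + 1)) × (Fin d → Fin (T' + 1)) × (Fin d → Fin k)) •
      ((A : ℝ) / (N + 1)) ≤ (Fintype.card (Coord r d × (Fin r → Fin (T' + 1)) → Fin q) : ℝ) := by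
    rw [← hN, ← hA, nsmul_eq_mul]
    rw [← mul_div_assoc, div_le_iff₀ (by positivity)]
    have : (0 : ℝ) ≤ (A : ℝ) := by positivity
    nlinarith
  obtain ⟨τ, hτ⟩ := Fintype.exists_le_card_fiber_of_nsmul_le_card t hb
  have hpos : (0 : ℝ) < (A : ℝ) / (N + 1) := by
    have : (0 : ℝ) < (A : ℝ) := by exact_mod_cast hApos
    positivity
  have hne2 : ((Finset.univ.filter fun x => t x = τ).card : ℝ) > 0 := lt_of_lt_of_le hpos hτ
  have hne3 : (Finset.univ.filter fun x => t x = τ).Nonempty := by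
    rw [← Finset.card_pos]
    exact_mod_cast hne2
  obtain ⟨y₀, hy₀⟩ := hne3
  rw [Finset.mem_filter] at hy₀
  have hτne : ∀ i, τ.1 i ≠ τ.2.1 i := by
    rw [← hy₀.2]
    exact ht1 y₀
  refine ⟨τ.1, τ.2.1, hτne, τ.2.2, ?_⟩
  refine fibre_count (jj τ.1 τ.2.1) (jj_inj hτne) hq {z | GoodT c τ.1 τ.2.1 τ.2.2 z} _ ?_
  have h1 : ((Finset.univ.filter fun x => t x = τ).card) ≤
      Set.ncard {y : Coord r d × (Fin r → Fin (T' + 1)) → Fin q |
        y ∘ jj τ.1 τ.2.1 ∈ {z | GoodT c τ.1 τ.2.1 τ.2.2 z}} := by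
    rw [← Set.ncard_coe_finset]
    refine Set.ncard_le_ncard ?_ (Set.toFinite _)
    intro y hy
    simp only [Finset.coe_filter, Finset.mem_univ, true_and, Set.mem_ofPred_eq] at hy
    have := ht2 y
    rw [hy] at this
    exact this
  refine le_trans (le_of_eq ?_) (hτ.trans (by exact_mod_cast h1))
  rw [← hN, hA, Fintype.card_fun, Fintype.card_fin]
  push_cast
  ring

end Pool.Agent.H15.SR
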