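import Mathlib

namespace Pool.Agent.H15.SR

private theorem drcBad_ncard {α : Type} [Fintype α] (p : α → Prop) [DecidablePred p] :
    (Set.ncard {x | p x} : ℝ) = ∑ x : α, (if p x then (1 : ℝ) else 0) := by
  have h : {x | p x} = ((Finset.univ.filter p : Finset α) : Set α) := by
    ext x; simp
  rw [h, Set.ncard_coe_finset, Finset.card_filter]
  push_cast
  rfl

/-- Bad tuples: the sum over `y ∈ (Fin q)^t` of the number of `Δ`-tuples `P` in `G'_y` with fewer than `Q` common
values is at most `(q ^ |Λ|) ^ Δ * Q ^ t` (a tuple with common set `W`, `|W| < Q`, survives for `|W| ^ t` of the `y`). -/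
theorem sum_bad {Λ : Type} [Fintype Λ] [DecidableEq Λ] {q : ℕ}
    (a : Λ) (G : (Λ → Fin q) → Prop) (Δ Q t : ℕ) (ht : 0 < t) :
    ∑ y : Fin t → Fin q, (Set.ncard {P : Fin Δ → (Λ → Fin q) |
        (∀ i, ∀ j, G (Function.update (P i) a (y j))) ∧
        Set.ncard {w : Fin q | ∀ i, G (Function.update (P i) a w)} < Q} : ℝ) ≤
      ((q : ℝ) ^ Fintype.card Λ) ^ Δ * (Q : ℝ) ^ t := by
  classical
  have h1 : ∀ y : Fin t → Fin q, (Set.ncard {P : Fin Δ → (Λ → Fin q) |
        (∀ i, ∀ j, G (Function.update (P i) a (y j))) ∧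
        Set.ncard {w : Fin q | ∀ i, G (Function.update (P i) a w)} < Q} : ℝ)
      = ∑ P : Fin Δ → (Λ → Fin q),
        (if Set.ncard {w : Fin q | ∀ i, G (Function.update (P i) a w)} < Q then
          ∏ j : Fin t, (if ∀ i, G (Function.update (P i) a (y j)) then (1 : ℝ) else 0) else 0) := by
    intro y
    rw [drcBad_ncard]
    refine Finset.sum_congr rfl (fun P _ => ?_)
    by_cases hQ : Set.ncard {w : Fin q | ∀ i, G (Function.update (P i) a w)} < Q
    · rw [if_pos hQ]
      by_cases h : ∀ i, ∀ j, G (Function.update (P i) a (y j))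
      · rw [if_pos ⟨h, hQ⟩, Finset.prod_eq_one]
        intro j _
        rw [if_pos (fun i => h i j)]
      · rw [if_neg (fun h' => h h'.1)]
        push Not at h
        obtain ⟨i, j, hij⟩ := h
        rw [Finset.prod_eq_zero (Finset.mem_univ j)]
        rw [if_neg (fun h' => hij (h' i))]
    · rw [if_neg hQ, if_neg (fun h' => hQ h'.2)]
  rw [Finset.sum_congr rfl (fun y _ => h1 y), Finset.sum_comm]
  have h2 : ∀ P : Fin Δ → (Λ → Fin q), ∑ y : Fin t → Fin q,
        (if Set.ncard {w : Fin q | ∀ i, G (Function.update (P i) a w)} < Q then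
          ∏ j : Fin t, (if ∀ i, G (Function.update (P i) a (y j)) then (1 : ℝ) else 0) else 0)
      ≤ (Q : ℝ) ^ t := by
    intro P
    by_cases hQ : Set.ncard {w : Fin q | ∀ i, G (Function.update (P i) a w)} < Q
    · simp only [if_pos hQ]
      rw [← Fintype.sum_pow (fun w : Fin q => if ∀ i, G (Function.update (P i) a w) then (1 : ℝ) else 0),
        ← drcBad_ncard]
      refine pow_le_pow_left₀ (by positivity) ?_ _
      exact_mod_cast hQ.le
    · simp only [if_neg hQ, Finset.sum_const_zero]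
      positivity
  refine le_trans (Finset.sum_le_sum (fun P _ => h2 P)) ?_
  rw [Finset.sum_const, Finset.card_univ, nsmul_eq_mul]
  have hcard : (Fintype.card (Fin Δ → (Λ → Fin q)) : ℝ) = ((q : ℝ) ^ Fintype.card Λ) ^ Δ := by
    rw [Fintype.card_fun, Fintype.card_fun, Fintype.card_fin, Fintype.card_fin]
    push_cast
    rfl
  rw [hcard]


end Pool.Agent.H15.SR
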