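import Pool.Agent.H15.SR.DrcAvg
import Pool.Agent.H15.SR.DrcBad

namespace Pool.Agent.H15.SR

/-- One step.  `t = K * |Λ| * Δ + 1`; `u ≥ 2 / c^t`. -/
theorem drc_step {Λ : Type} [Fintype Λ] [DecidableEq Λ] (Δ K : ℕ) (hK : 1 ≤ K) (c : ℝ) (hc : 0 < c) :
    ∃ c' : ℝ, 0 < c' ∧ ∃ u₀ : ℕ, ∀ u : ℕ, u₀ ≤ u → ∀ (a : Λ) (G : (Λ → Fin (u ^ K)) → Prop),
      c * ((u ^ K : ℕ) : ℝ) ^ Fintype.card Λ ≤ Set.ncard {x | G x} →
      ∃ (t : ℕ) (y : Fin t → Fin (u ^ K)),
        c' * ((u ^ K : ℕ) : ℝ) ^ Fintype.card Λ ≤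
          Set.ncard {x : Λ → Fin (u ^ K) | ∀ j, G (Function.update x a (y j))} ∧
        ∀ P : Fin Δ → (Λ → Fin (u ^ K)), (∀ i, ∀ j, G (Function.update (P i) a (y j))) →
          u ^ (K - 1) ≤ Set.ncard {w : Fin (u ^ K) | ∀ i, G (Function.update (P i) a w)} := by
  classical
  set t : ℕ := K * Fintype.card Λ * Δ + 1 with ht
  obtain ⟨u₀, hu₀⟩ := exists_nat_ge (2 / c ^ t)
  have hct : 0 < c ^ t := pow_pos hc t
  refine ⟨c ^ t / 2, by positivity, max u₀ 1, ?_⟩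
  intro u hu a
  have hu1 : 1 ≤ u := le_trans (le_max_right _ _) hu
  have hu2 : 2 / c ^ t ≤ (u : ℝ) := le_trans hu₀ (by exact_mod_cast le_trans (le_max_left _ _) hu)
  have huR : (0 : ℝ) < u := by exact_mod_cast hu1
  have hq : 0 < u ^ K := pow_pos hu1 K
  generalize hqdef : u ^ K = q at hq ⊢
  intro G hG
  have hqR : (0 : ℝ) < q := by exact_mod_cast hq
  have hN : (0 : ℝ) < (q : ℝ) ^ Fintype.card Λ := by positivity
  have h1 := avg_density hq a G c hc hG t
  have h2 := sum_bad a G Δ (u ^ (K - 1)) t (by omega)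
  set A : (Fin t → Fin q) → ℝ := fun y =>
    (Set.ncard {x : Λ → Fin q | ∀ j, G (Function.update x a (y j))} : ℝ) with hA
  set B : (Fin t → Fin q) → ℝ := fun y => (Set.ncard {P : Fin Δ → (Λ → Fin q) |
        (∀ i, ∀ j, G (Function.update (P i) a (y j))) ∧
        Set.ncard {w : Fin q | ∀ i, G (Function.update (P i) a w)} < u ^ (K - 1)} : ℝ) with hB
  have hcardT : ((Finset.univ : Finset (Fin t → Fin q)).card : ℝ) = (q : ℝ) ^ t := by
    rw [Finset.card_univ, Fintype.card_fun, Fintype.card_fin, Fintype.card_fin]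
    push_cast
    rfl
  -- the key numerical identity
  have hkey : ((q : ℝ) ^ Fintype.card Λ) ^ Δ * ((u ^ (K - 1) : ℕ) : ℝ) ^ t * u = (q : ℝ) ^ t := by
    have e1 : (q : ℝ) = (u : ℝ) ^ K := by rw [← hqdef]; push_cast; rfl
    have e2 : ((u ^ (K - 1) : ℕ) : ℝ) = (u : ℝ) ^ (K - 1) := by push_cast; rfl
    rw [e1, e2, ← pow_mul, ← pow_mul, ← pow_mul, ← pow_mul, ← pow_add, ← pow_succ]
    congr 1
    obtain ⟨k, rfl⟩ : ∃ k, K = k + 1 := ⟨K - 1, by omega⟩
    simp only [Nat.add_sub_cancel]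
    rw [ht]
    ring
  have hkey2 : ((q : ℝ) ^ Fintype.card Λ) ^ Δ * ((u ^ (K - 1) : ℕ) : ℝ) ^ t ≤ c ^ t / 2 * (q : ℝ) ^ t := by
    rw [← hkey]
    have h3 : 1 ≤ c ^ t / 2 * u := by
      have := mul_le_mul_of_nonneg_left hu2 (by positivity : 0 ≤ c ^ t / 2)
      have e : c ^ t / 2 * (2 / c ^ t) = 1 := by field_simp
      linarith
    have h4 : 0 ≤ ((q : ℝ) ^ Fintype.card Λ) ^ Δ * ((u ^ (K - 1) : ℕ) : ℝ) ^ t := by positivity
    nlinarith
  -- averaging
  have hex : ∃ y ∈ (Finset.univ : Finset (Fin t → Fin q)),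
      c ^ t / 2 * (q : ℝ) ^ Fintype.card Λ ≤ A y - (q : ℝ) ^ Fintype.card Λ * B y := by
    have : Nonempty (Fin q) := ⟨⟨0, hq⟩⟩
    refine Finset.exists_le_of_sum_le Finset.univ_nonempty ?_
    rw [Finset.sum_const, nsmul_eq_mul, hcardT, Finset.sum_sub_distrib, ← Finset.mul_sum]
    have h5 := mul_le_mul_of_nonneg_left (le_trans h2 hkey2) hN.le
    nlinarith [h1, h5]
  obtain ⟨y, -, hy⟩ := hex
  have hAle : A y ≤ (q : ℝ) ^ Fintype.card Λ := by
    have h6 : Set.ncard {x : Λ → Fin q | ∀ j, G (Function.update x a (y j))} ≤ q ^ Fintype.card Λ := by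
      calc Set.ncard {x : Λ → Fin q | ∀ j, G (Function.update x a (y j))}
          ≤ Set.ncard (Set.univ : Set (Λ → Fin q)) := Set.ncard_le_ncard (Set.subset_univ _) Set.finite_univ
        _ = q ^ Fintype.card Λ := by
          rw [Set.ncard_univ, Nat.card_eq_fintype_card, Fintype.card_fun, Fintype.card_fin]
    simp only [hA]
    exact_mod_cast h6
  have hB0 : B y = 0 := by
    by_contra hne
    have h7 : 1 ≤ B y := by
      rw [hB] at hne ⊢
      simp only at hne ⊢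
      have : Set.ncard {P : Fin Δ → (Λ → Fin q) |
        (∀ i, ∀ j, G (Function.update (P i) a (y j))) ∧
        Set.ncard {w : Fin q | ∀ i, G (Function.update (P i) a w)} < u ^ (K - 1)} ≠ 0 := by
        exact_mod_cast hne
      exact_mod_cast Nat.one_le_iff_ne_zero.mpr this
    have h8 : 0 < c ^ t / 2 * (q : ℝ) ^ Fintype.card Λ := by positivity
    nlinarith
  refine ⟨t, y, ?_, ?_⟩
  · rw [hB0, mul_zero, sub_zero] at hy
    exact hy
  · intro P hP
    by_contra hlt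
    push Not at hlt
    have hB0' : Set.ncard {P : Fin Δ → (Λ → Fin q) |
        (∀ i, ∀ j, G (Function.update (P i) a (y j))) ∧
        Set.ncard {w : Fin q | ∀ i, G (Function.update (P i) a w)} < u ^ (K - 1)} = 0 := by
      simp only [hB] at hB0
      exact_mod_cast hB0
    rw [Set.ncard_eq_zero (Set.toFinite _)] at hB0'
    have : P ∈ {P : Fin Δ → (Λ → Fin q) |
        (∀ i, ∀ j, G (Function.update (P i) a (y j))) ∧
        Set.ncard {w : Fin q | ∀ i, G (Function.update (P i) a w)} < u ^ (K - 1)} := ⟨hP, hlt⟩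
    rw [hB0'] at this
    exact this


end Pool.Agent.H15.SR
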