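import Pool.Agent.H15.SR.DrcDefs
import Pool.Agent.H15.SR.DrcStep

namespace Pool.Agent.H15.SR

private theorem drc_indep {Λ : Type} [Fintype Λ] [DecidableEq Λ] {q : ℕ} (G : (Λ → Fin q) → Prop)
    (h : ∀ a x w, G (Function.update x a w) ↔ G x) (x x' : Λ → Fin q) : G x ↔ G x' := by
  have key : ∀ s : Finset Λ, G (fun i => if i ∈ s then x' i else x i) ↔ G x := by
    intro s
    induction s using Finset.induction_on with
    | empty => simp
    | insert a s ha ih =>
      rw [← ih]
      have e : (fun i => if i ∈ insert a s then x' i else x i)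
          = Function.update (fun i => if i ∈ s then x' i else x i) a (x' a) := by
        funext i
        by_cases hi : i = a
        · subst hi
          simp
        · rw [Function.update_of_ne hi]
          simp [hi]
      rw [e]
      exact h _ _ _
  have := key Finset.univ
  simp only [Finset.mem_univ, if_true] at this
  exact this.symm

/-- The robust lemma: induction on `l` with `drc_step`; for `l = []` the predicate depends on no coordinate and
holds somewhere, hence everywhere.  `G' x := ∀ j, G (update x a (y j))` does not depend on `a`, nor on any coordinate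
on which `G` does not depend. -/
theorem robust_of_dense {Λ : Type} [Fintype Λ] [DecidableEq Λ] (Δ K : ℕ) (hK : 1 ≤ K) (l : List Λ) :
    ∀ c : ℝ, 0 < c → ∃ u₀ : ℕ, ∀ u : ℕ, u₀ ≤ u → ∀ G : (Λ → Fin (u ^ K)) → Prop,
      (∀ a, a ∉ l → ∀ x w, G (Function.update x a w) ↔ G x) →
      c * ((u ^ K : ℕ) : ℝ) ^ Fintype.card Λ ≤ Set.ncard {x | G x} →
      Robust Δ (u ^ (K - 1)) l G := by
  induction l with
  | nil =>
    intro c hc
    refine ⟨1, ?_⟩
    intro u hu G hG hd
    have hu' : (0 : ℝ) < ((u ^ K : ℕ) : ℝ) := by
      have : 0 < u ^ K := pow_pos hu K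
      exact_mod_cast this
    have hpos : (0 : ℝ) < Set.ncard {x | G x} := lt_of_lt_of_le (by positivity) hd
    have hne : {x | G x}.Nonempty := by
      have h0 : Set.ncard {x | G x} ≠ 0 := by
        intro h0
        rw [h0] at hpos
        simp at hpos
      exact Set.nonempty_of_ncard_ne_zero h0
    obtain ⟨x₀, hx₀⟩ := hne
    intro x
    exact (drc_indep G (fun a x w => hG a List.not_mem_nil x w) x₀ x).mp hx₀
  | cons a l ih =>
    intro c hc
    obtain ⟨c', hc', u₁, hu₁⟩ := drc_step (Λ := Λ) Δ K hK c hc
    obtain ⟨u₂, hu₂⟩ := ih c' hc'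
    refine ⟨max u₁ u₂, ?_⟩
    intro u hu G hG hd
    obtain ⟨t, y, hy1, hy2⟩ := hu₁ u (le_trans (le_max_left _ _) hu) a G hd
    refine ⟨fun x => ∀ j, G (Function.update x a (y j)), ?_, hy2⟩
    refine hu₂ u (le_trans (le_max_right _ _) hu) _ ?_ hy1
    intro b hb x w
    by_cases hba : b = a
    · subst hba
      simp only [Function.update_idem]
    · refine forall_congr' (fun j => ?_)
      rw [Function.update_comm hba]
      exact hG b (by simp [hba, hb]) _ _


end Pool.Agent.H15.SR
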