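import Mathlib

namespace Pool.Agent.H15.SR

private theorem drcAvg_ncard {α : Type} [Fintype α] (p : α → Prop) [DecidablePred p] :
    (Set.ncard {x | p x} : ℝ) = ∑ x : α, (if p x then (1 : ℝ) else 0) := by
  have h : {x | p x} = ((Finset.univ.filter p : Finset α) : Set α) := by
    ext x; simp
  rw [h, Set.ncard_coe_finset, Finset.card_filter]
  push_cast
  rfl

private theorem drcAvg_sum {Λ : Type} [Fintype Λ] [DecidableEq Λ] {q : ℕ}
    (a : Λ) (G : (Λ → Fin q) → Prop) [DecidablePred G] :
    ∑ x : Λ → Fin q, ∑ w : Fin q, (if G (Function.update x a w) then (1 : ℝ) else 0)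
      = (q : ℝ) * ∑ x : Λ → Fin q, (if G x then (1 : ℝ) else 0) := by
  let e : ((Λ → Fin q) × Fin q) → ((Λ → Fin q) × Fin q) := fun p => (Function.update p.1 a p.2, p.1 a)
  have he : Function.Involutive e := by
    intro p
    simp only [e, Function.update_idem, Function.update_self, Function.update_eq_self]
  have h1 : ∑ x : Λ → Fin q, ∑ w : Fin q, (if G (Function.update x a w) then (1 : ℝ) else 0)
      = ∑ p : (Λ → Fin q) × Fin q, (if G (e p).1 then (1 : ℝ) else 0) := by
    rw [Fintype.sum_prod_type]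
  rw [h1]
  have h2 : ∑ p : (Λ → Fin q) × Fin q, (if G (e p).1 then (1 : ℝ) else 0)
      = ∑ p : (Λ → Fin q) × Fin q, (if G p.1 then (1 : ℝ) else 0) :=
    Equiv.sum_comp (he.toPerm e) (fun p => if G p.1 then (1 : ℝ) else 0)
  rw [h2, Fintype.sum_prod_type, Finset.mul_sum]
  refine Finset.sum_congr rfl (fun x _ => ?_)
  change ∑ _y : Fin q, (if G x then (1 : ℝ) else 0) = _
  rw [Finset.sum_const, Finset.card_univ, Fintype.card_fin, nsmul_eq_mul]

/-- First moment: the average over `y ∈ (Fin q)^t` of the density of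
`G'_y = {x | ∀ j, G (update x a (y j))}` is at least `c^t`.
Proof: `∑_y #G'_y = ∑_x |N x|^t`, `N x = {w | G (update x a w)}`, `∑_x |N x| = q * #G` (the map
`(x, w) ↦ update x a w` is `q` to one), power mean inequality (`inner_le_nnorm` style:
`inv_card ... pow_arith_mean_le_arith_mean_pow` or `pow_sum_div_card_le_sum_pow`). -/
theorem avg_density {Λ : Type} [Fintype Λ] [DecidableEq Λ] {q : ℕ} (hq : 0 < q)
    (a : Λ) (G : (Λ → Fin q) → Prop) (c : ℝ) (hc : 0 < c)
    (hG : c * (q : ℝ) ^ Fintype.card Λ ≤ Set.ncard {x | G x}) (t : ℕ) :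
    c ^ t * (q : ℝ) ^ Fintype.card Λ * (q : ℝ) ^ t ≤
      ∑ y : Fin t → Fin q, (Set.ncard {x : Λ → Fin q | ∀ j, G (Function.update x a (y j))} : ℝ) := by
  classical
  have hq' : (0 : ℝ) < q := by exact_mod_cast hq
  set f : (Λ → Fin q) → ℝ := fun x => ∑ w : Fin q, (if G (Function.update x a w) then (1 : ℝ) else 0)
    with hf
  have hf0 : ∀ x, 0 ≤ f x := fun x => Finset.sum_nonneg (fun w _ => by split_ifs <;> norm_num)
  have hR : ∑ y : Fin t → Fin q,
      (Set.ncard {x : Λ → Fin q | ∀ j, G (Function.update x a (y j))} : ℝ) = ∑ x, f x ^ t := by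
    have h1 : ∀ y : Fin t → Fin q,
        (Set.ncard {x : Λ → Fin q | ∀ j, G (Function.update x a (y j))} : ℝ)
        = ∑ x : Λ → Fin q, ∏ j : Fin t, (if G (Function.update x a (y j)) then (1 : ℝ) else 0) := by
      intro y
      rw [drcAvg_ncard]
      refine Finset.sum_congr rfl (fun x _ => ?_)
      by_cases h : ∀ j, G (Function.update x a (y j))
      · rw [if_pos h, Finset.prod_eq_one]
        intro j _
        rw [if_pos (h j)]
      · rw [if_neg h]
        push Not at h
        obtain ⟨j, hj⟩ := h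
        rw [Finset.prod_eq_zero (Finset.mem_univ j)]
        rw [if_neg hj]
    rw [Finset.sum_congr rfl (fun y _ => h1 y), Finset.sum_comm]
    refine Finset.sum_congr rfl (fun x _ => ?_)
    rw [hf]
    simp only
    rw [Fintype.sum_pow]
  rw [hR]
  have hcard : ((Finset.univ : Finset (Λ → Fin q)).card : ℝ) = (q : ℝ) ^ Fintype.card Λ := by
    rw [Finset.card_univ, Fintype.card_fun, Fintype.card_fin]
    push_cast
    rfl
  have hN : (0 : ℝ) < (q : ℝ) ^ Fintype.card Λ := by positivity
  rcases t with _ | t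
  · simp only [pow_zero, Finset.sum_const, nsmul_eq_mul, mul_one, one_mul, hcard]
    exact le_refl _
  · have hp := pow_sum_div_card_le_sum_pow (s := (Finset.univ : Finset (Λ → Fin q))) (f := f)
      (fun x _ => hf0 x) t
    refine le_trans ?_ hp
    rw [hcard, le_div_iff₀ (by positivity)]
    have hs : c * (q : ℝ) ^ Fintype.card Λ * q ≤ ∑ x, f x := by
      rw [hf]
      simp only
      rw [drcAvg_sum, mul_comm]
      refine mul_le_mul_of_nonneg_left ?_ hq'.le
      rw [← drcAvg_ncard]
      exact hG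
    calc c ^ (t + 1) * (q : ℝ) ^ Fintype.card Λ * (q : ℝ) ^ (t + 1) * ((q : ℝ) ^ Fintype.card Λ) ^ t
        = (c * (q : ℝ) ^ Fintype.card Λ * q) ^ (t + 1) := by
          rw [mul_pow, mul_pow, pow_succ ((q : ℝ) ^ Fintype.card Λ) t]
          ring
      _ ≤ _ := pow_le_pow_left₀ (by positivity) hs _


end Pool.Agent.H15.SR
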