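import Mathlib

/-!
# SR.DrcDefs: the robust chain

`Robust Δ Q l G`: the coordinates of the list `l` can be chosen one after the other (last element of the list
first), any `Δ` partial choices in `G'` have at least `Q` common values for the next coordinate.
-/

namespace Pool.Agent.H15.SR

/-- The robust chain below a predicate `G` on functions `Λ → Fin q`. -/
def Robust {Λ : Type} [DecidableEq Λ] {q : ℕ} (Δ Q : ℕ) : List Λ → ((Λ → Fin q) → Prop) → Prop
  | [], G => ∀ x, G x
  | (a :: l), G => ∃ G' : (Λ → Fin q) → Prop, Robust Δ Q l G' ∧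
      ∀ P : Fin Δ → (Λ → Fin q), (∀ i, G' (P i)) →
        Q ≤ Set.ncard {w : Fin q | ∀ i, G (Function.update (P i) a w)}


end Pool.Agent.H15.SR
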