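import Mathlib

/-!
# SR.Load: load balanced choice (greedy)

Induction over the finset `S`: for a new symbol `s` and each class `c` containing `s`, the number of values `w` with
already `B c` symbols of `κ c` of value `w` is at most `|κ c| / B c ≤ Q₀`; so at most `Δ * Q₀ < |C s|` values are
excluded.
-/

namespace Pool.Agent.H15.SR

open Classical in
private lemma Load_few {Sy : Type} {q : ℕ} (K : Finset Sy) (S : Finset Sy) (φ : Sy → Fin q) (b Q₀ : ℕ)
    (hb : 1 ≤ b) (hK : K.card ≤ b * Q₀) :
    ((Finset.univ : Finset (Fin q)).filter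
      (fun w => b ≤ (K.filter (fun s => s ∈ S ∧ φ s = w)).card)).card ≤ Q₀ := by
  set E := (Finset.univ : Finset (Fin q)).filter
      (fun w => b ≤ (K.filter (fun s => s ∈ S ∧ φ s = w)).card) with hE
  have h1 : E.card * b ≤ ∑ w ∈ E, (K.filter (fun s => s ∈ S ∧ φ s = w)).card := by
    rw [← smul_eq_mul]
    apply Finset.card_nsmul_le_sum
    intro w hw
    exact (Finset.mem_filter.mp hw).2
  have h2 : ∑ w ∈ E, (K.filter (fun s => s ∈ S ∧ φ s = w)).card ≤ K.card := by
    rw [← Finset.card_biUnion]
    · apply Finset.card_le_card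
      intro x hx
      simp only [Finset.mem_biUnion, Finset.mem_filter] at hx
      obtain ⟨w, _, h, _⟩ := hx
      exact h
    · intro x _ y _ hxy
      rw [Function.onFun, Finset.disjoint_left]
      intro z hz hz'
      simp only [Finset.mem_filter] at hz hz'
      exact hxy (hz.2.2.symm.trans hz'.2.2)
  have h3 : E.card * b ≤ Q₀ * b := by
    calc E.card * b ≤ K.card := h1.trans h2
      _ ≤ b * Q₀ := hK
      _ = Q₀ * b := mul_comm _ _
  exact Nat.le_of_mul_le_mul_right h3 (by omega)

open Classical in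
theorem load_lemma {Sy ι : Type} (S : Finset Sy) (𝒞 : Finset ι) (κ : ι → Finset Sy)
    (Δ Q₀ : ℕ) (B : ι → ℕ) (hB : ∀ c ∈ 𝒞, 1 ≤ B c)
    (hΔ : ∀ s ∈ S, (𝒞.filter (fun c => s ∈ κ c)).card ≤ Δ)
    (hκ : ∀ c ∈ 𝒞, (κ c).card ≤ B c * Q₀)
    {q : ℕ} (hq : 0 < q) (C : Sy → Set (Fin q)) (hC : ∀ s ∈ S, Δ * Q₀ < (C s).ncard) :
    ∃ φ : Sy → Fin q, (∀ s ∈ S, φ s ∈ C s) ∧
      ∀ c ∈ 𝒞, ∀ w, ((κ c).filter (fun s => s ∈ S ∧ φ s = w)).card ≤ B c := by
  induction S using Finset.induction_on with
  | empty =>
    refine ⟨fun _ => ⟨0, hq⟩, by simp, ?_⟩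
    intro c _ w
    simp
  | @insert s S' hs ih =>
    obtain ⟨φ, h1, h2⟩ := ih (fun t ht => hΔ t (Finset.mem_insert_of_mem ht))
      (fun t ht => hC t (Finset.mem_insert_of_mem ht))
    set E : Finset (Fin q) := (𝒞.filter (fun c => s ∈ κ c)).biUnion (fun c =>
      (Finset.univ : Finset (Fin q)).filter
        (fun w => B c ≤ ((κ c).filter (fun t => t ∈ S' ∧ φ t = w)).card)) with hE
    have hEc : E.card ≤ Δ * Q₀ := by
      refine (Finset.card_biUnion_le_card_mul _ _ Q₀ ?_).trans
        (Nat.mul_le_mul_right _ (hΔ s (Finset.mem_insert_self _ _)))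
      intro c hc
      have hc' := (Finset.mem_filter.mp hc).1
      exact Load_few (κ c) S' φ (B c) Q₀ (hB c hc') (hκ c hc')
    have hlt : (E : Set (Fin q)).ncard < (C s).ncard := by
      rw [Set.ncard_coe_finset]
      exact hEc.trans_lt (hC s (Finset.mem_insert_self _ _))
    obtain ⟨w0, hw0, hw0E⟩ := Set.exists_mem_notMem_of_ncard_lt_ncard hlt
    refine ⟨Function.update φ s w0, ?_, ?_⟩
    · intro t ht
      rcases Finset.mem_insert.mp ht with h | h
      · subst h
        simpa using hw0
      · have hne : t ≠ s := fun e => hs (e ▸ h)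
        rw [Function.update_of_ne hne]
        exact h1 t h
    · intro c hc w
      have hsub : (κ c).filter (fun t => t ∈ insert s S' ∧ Function.update φ s w0 t = w) ⊆
          (if s ∈ κ c ∧ w0 = w then insert s ((κ c).filter (fun t => t ∈ S' ∧ φ t = w))
            else (κ c).filter (fun t => t ∈ S' ∧ φ t = w)) := by
        intro t ht
        simp only [Finset.mem_filter, Finset.mem_insert] at ht
        obtain ⟨htc, hts, htw⟩ := ht
        by_cases hts' : t = s
        · subst hts'
          rw [Function.update_self] at htw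
          rw [if_pos ⟨htc, htw⟩]
          exact Finset.mem_insert_self _ _
        · rw [Function.update_of_ne hts'] at htw
          have hmem : t ∈ (κ c).filter (fun t => t ∈ S' ∧ φ t = w) := by
            simp only [Finset.mem_filter]
            exact ⟨htc, hts.resolve_left hts', htw⟩
          split_ifs
          · exact Finset.mem_insert_of_mem hmem
          · exact hmem
      refine (Finset.card_le_card hsub).trans ?_
      split_ifs with hcase
      · obtain ⟨hsc, rfl⟩ := hcase
        have hnot : ¬ (B c ≤ ((κ c).filter (fun t => t ∈ S' ∧ φ t = w0)).card) := by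
          intro hle
          apply hw0E
          rw [Finset.mem_coe, hE, Finset.mem_biUnion]
          exact ⟨c, Finset.mem_filter.mpr ⟨hc, hsc⟩, Finset.mem_filter.mpr ⟨Finset.mem_univ _, hle⟩⟩
        have := Finset.card_insert_le s ((κ c).filter (fun t => t ∈ S' ∧ φ t = w0))
        omega
      · exact h2 c hc w

end Pool.Agent.H15.SR
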