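import Pool.Agent.H15.SR.DrcDefs
import Pool.Agent.H15.SR.Load

/-!
# SR.Greedy: the greedy theorem

Induction on `l` (see section 5 of the paper).  Step `a :: l`: take `G'` from `Robust`, `φ'` from the induction
hypothesis, then choose `φ a` by `load_lemma` with `S := image (sym a) univ`, index type
`ι := Π' × (Λ → Option (Fin q))`, `key f := (p f, fun b => if b ∈ l ∧ act b (p f) then some (φ' b (sym b f)) else none)`,
`𝒞 := image key {f | act a (p f)}`, `κ c := image (sym a) {f | key f = c}`,
`B c := Q₀ ^ (M - #active classes of a :: l for c.1)`,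
`C s := {w | ∀ f with sym a f = s, G (update x'_f a w)}` where `x'_f b = φ' b (sym b f)`; the fibre has at most `Δ`
elements, so it is the range of some `Fin Δ → F` (it is nonempty for `s ∈ S`), and `Robust` gives `|C s| ≥ Q`.
Then `φ := update φ' a φ_a`.
-/

namespace Pool.Agent.H15.SR

/-- A nonempty finite set with at most `Δ` elements is the range of a function on `Fin Δ`. -/
theorem exists_enum {F : Type} [Finite F] (s : Set F) (hs : s.Nonempty) (Δ : ℕ) (h : s.ncard ≤ Δ) :
    ∃ g : Fin Δ → F, (∀ i, g i ∈ s) ∧ ∀ x ∈ s, ∃ i, g i = x := by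
  classical
  have hfin : s.Finite := Set.toFinite s
  have : Fintype s := hfin.fintype
  have hc : Fintype.card s ≤ Δ := by
    rw [← Nat.card_eq_fintype_card]
    exact h
  obtain ⟨x0, hx0⟩ := hs
  let e := Fintype.equivFin s
  refine ⟨fun i => if hi : (i : ℕ) < Fintype.card s then (e.symm ⟨i, hi⟩ : s).1 else x0, ?_, ?_⟩
  · intro i
    by_cases hi : (i : ℕ) < Fintype.card s
    · simp only [hi, dite_true]
      exact (e.symm ⟨i, hi⟩).2
    · simp only [hi, dite_false]
      exact hx0
  · intro x hx
    refine ⟨⟨(e ⟨x, hx⟩ : ℕ), lt_of_lt_of_le (e ⟨x, hx⟩).2 hc⟩, ?_⟩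
    have hlt : ((e ⟨x, hx⟩ : Fin (Fintype.card s)) : ℕ) < Fintype.card s := (e ⟨x, hx⟩).2
    simp only [hlt, dite_true, Fin.eta, Equiv.symm_apply_apply]

open Classical in
theorem greedy {Λ F Sy Pt : Type} [Fintype Λ] [DecidableEq Λ] [Fintype F] {q : ℕ} (hq : 0 < q)
    (Δ Q Q₀ M : ℕ) (hQ : Δ * Q₀ < Q) (sym : Λ → F → Sy) (p : F → Pt) (act : Λ → Pt → Prop) :
    ∀ l : List Λ, l.Nodup →
      (∀ a ∈ l, ∀ s, Set.ncard {f | sym a f = s} ≤ Δ) →
      (∀ a ∈ l, ∀ f f', p f = p f' → act a (p f) → sym a f = sym a f' → f = f') →
      (∀ π, (l.filter (fun a => act a π)).length ≤ M) →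
      (∀ π, Set.ncard {f | p f = π} ≤ Q₀ ^ M) →
      ∀ G : (Λ → Fin q) → Prop, Robust Δ Q l G →
      ∃ φ : Λ → Sy → Fin q, (∀ f, G (fun a => φ a (sym a f))) ∧
        ∀ f, Set.ncard {f' | p f' = p f ∧
            ∀ a ∈ l, act a (p f) → φ a (sym a f') = φ a (sym a f)} ≤
          Q₀ ^ (M - (l.filter (fun a => act a (p f))).length) := by
  intro l
  induction l with
  | nil =>
    intro _ _ _ _ hF G hG
    refine ⟨fun _ _ => ⟨0, hq⟩, fun f => hG _, fun f => ?_⟩
    simpa using hF (p f)
  | cons a l ih =>
    intro hnd hfib hinj hJ hF G hG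
    obtain ⟨G', hG', hext⟩ := hG
    have hal : a ∉ l := (List.nodup_cons.mp hnd).1
    have hl : l.Nodup := (List.nodup_cons.mp hnd).2
    have hJl : ∀ π, (l.filter (fun a => act a π)).length ≤ M := by
      intro π
      refine le_trans ?_ (hJ π)
      rw [List.filter_cons]
      split
      · simp
      · exact le_rfl
    obtain ⟨φ', h1, h2⟩ := ih hl (fun b hb => hfib b (List.mem_cons_of_mem _ hb))
      (fun b hb => hinj b (List.mem_cons_of_mem _ hb)) hJl hF G' hG'
    let x : F → Λ → Fin q := fun f b => φ' b (sym b f)
    let key : F → Pt × (Λ → Option (Fin q)) := fun f =>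
      (p f, fun b => if b ∈ l ∧ act b (p f) then some (φ' b (sym b f)) else none)
    have key_iff : ∀ f f', key f' = key f ↔
        (p f' = p f ∧ ∀ b ∈ l, act b (p f) → φ' b (sym b f') = φ' b (sym b f)) := by
      intro f f'
      constructor
      · intro h
        have hp : p f' = p f := congrArg Prod.fst h
        refine ⟨hp, fun b hb hact => ?_⟩
        have h3 := congrFun (congrArg Prod.snd h) b
        simp only [key, hp, hb, hact, and_self, if_true] at h3
        exact Option.some_injective _ h3
      · rintro ⟨hp, hb⟩
        refine Prod.ext hp ?_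
        funext b
        simp only [key, hp]
        by_cases hc : b ∈ l ∧ act b (p f)
        · simp only [hc, and_self, if_true]
          rw [hb b hc.1 hc.2]
        · simp only [hc, if_false]
    let S : Finset Sy := Finset.univ.image (sym a)
    let 𝒞 : Finset (Pt × (Λ → Option (Fin q))) :=
      (Finset.univ.filter (fun f => act a (p f))).image key
    let κ : Pt × (Λ → Option (Fin q)) → Finset Sy := fun c =>
      (Finset.univ.filter (fun f => key f = c)).image (sym a)
    let B : Pt × (Λ → Option (Fin q)) → ℕ := fun c =>
      Q₀ ^ (M - ((a :: l).filter (fun b => act b c.1)).length)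
    let C : Sy → Set (Fin q) := fun s => {w | ∀ f, sym a f = s → G (Function.update (x f) a w)}
    have hclass : ∀ f, act a (p f) →
        (M - (l.filter (fun b => act b (p f))).length) =
          (M - ((a :: l).filter (fun b => act b (p f))).length) + 1 := by
      intro f hact
      have h3 := hJ (p f)
      have h4 : ((a :: l).filter (fun b => act b (p f))).length =
          (l.filter (fun b => act b (p f))).length + 1 := by
        rw [List.filter_cons]
        simp [hact]
      omega
    have hQpos : ∀ f, act a (p f) → 0 < Q₀ := by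
      intro f hact
      have h3 := hF (p f)
      have h4 : 0 < Set.ncard {f' | p f' = p f} := by
        rw [Set.ncard_pos (Set.toFinite _)]
        exact ⟨f, rfl⟩
      rcases Nat.eq_zero_or_pos Q₀ with h0 | h0
      · have hM : M ≠ 0 := by
          have h5 := hclass f hact
          omega
        rw [h0, zero_pow hM] at h3
        omega
      · exact h0
    have hB : ∀ c ∈ 𝒞, 1 ≤ B c := by
      intro c hc
      simp only [𝒞, Finset.mem_image, Finset.mem_filter, Finset.mem_univ, true_and] at hc
      obtain ⟨f, hact, rfl⟩ := hc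
      exact Nat.one_le_pow _ _ (hQpos f hact)
    have hΔ : ∀ s ∈ S, (𝒞.filter (fun c => s ∈ κ c)).card ≤ Δ := by
      intro s _
      refine le_trans ?_ (hfib a List.mem_cons_self s)
      have hsub : 𝒞.filter (fun c => s ∈ κ c) ⊆
          (Finset.univ.filter (fun f => sym a f = s)).image key := by
        intro c hc
        rw [Finset.mem_filter] at hc
        obtain ⟨_, hc2⟩ := hc
        simp only [κ, Finset.mem_image, Finset.mem_filter, Finset.mem_univ, true_and] at hc2
        obtain ⟨f, hf1, hf2⟩ := hc2
        simp only [Finset.mem_image, Finset.mem_filter, Finset.mem_univ, true_and]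
        exact ⟨f, hf2, hf1⟩
      calc (𝒞.filter (fun c => s ∈ κ c)).card
          ≤ ((Finset.univ.filter (fun f => sym a f = s)).image key).card := Finset.card_le_card hsub
        _ ≤ (Finset.univ.filter (fun f => sym a f = s)).card := Finset.card_image_le
        _ = Set.ncard {f | sym a f = s} := by
            rw [← Set.ncard_coe_finset]
            congr 1
            ext f
            simp
    have hκ : ∀ c ∈ 𝒞, (κ c).card ≤ B c * Q₀ := by
      intro c hc
      simp only [𝒞, Finset.mem_image, Finset.mem_filter, Finset.mem_univ, true_and] at hc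
      obtain ⟨f, hact, rfl⟩ := hc
      have h3 := h2 f
      rw [hclass f hact, pow_succ] at h3
      refine le_trans Finset.card_image_le (le_trans (le_of_eq ?_) h3)
      rw [← Set.ncard_coe_finset]
      congr 1
      ext f'
      simp only [Finset.coe_filter, Finset.mem_univ, true_and, Set.mem_ofPred_eq]
      exact key_iff f f'
    have hC : ∀ s ∈ S, Δ * Q₀ < (C s).ncard := by
      intro s hs
      simp only [S, Finset.mem_image, Finset.mem_univ, true_and] at hs
      obtain ⟨f0, hf0⟩ := hs
      obtain ⟨g, hg1, hg2⟩ := exists_enum {f | sym a f = s} ⟨f0, hf0⟩ Δ (hfib a List.mem_cons_self s)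
      have h3 := hext (fun i => x (g i)) (fun i => h1 (g i))
      refine lt_of_lt_of_le hQ (le_trans h3 ?_)
      refine Set.ncard_le_ncard ?_ (Set.toFinite _)
      intro w hw f hf
      obtain ⟨i, hi⟩ := hg2 f hf
      have := hw i
      rw [hi] at this
      exact this
    obtain ⟨ψ, hψ1, hψ2⟩ := load_lemma S 𝒞 κ Δ Q₀ B hB hΔ hκ hq C hC
    refine ⟨fun b => if b = a then ψ else φ' b, ?_, ?_⟩
    · intro f
      have h3 : (fun b => (if b = a then ψ else φ' b) (sym b f)) =
          Function.update (x f) a (ψ (sym a f)) := by
        funext b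
        by_cases hb : b = a
        · subst hb
          simp
        · simp [hb, x]
      rw [h3]
      have h4 := hψ1 (sym a f) (by simp [S])
      exact h4 f rfl
    · intro f
      by_cases hact : act a (p f)
      · have hmem : key f ∈ 𝒞 := by
          simp only [𝒞, Finset.mem_image, Finset.mem_filter, Finset.mem_univ, true_and]
          exact ⟨f, hact, rfl⟩
        have h3 := hψ2 (key f) hmem (ψ (sym a f))
        refine le_trans ?_ h3
        rw [← Set.ncard_coe_finset]
        refine Set.ncard_le_ncard_of_injOn (sym a) ?_ ?_ (Set.toFinite _)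
        · intro f' hf'
          obtain ⟨hp, hb⟩ := hf'
          have hk : key f' = key f := by
            rw [key_iff]
            refine ⟨hp, fun b hbl hactb => ?_⟩
            have h5 := hb b (List.mem_cons_of_mem _ hbl) hactb
            have hne : b ≠ a := fun h => hal (h ▸ hbl)
            simpa [hne] using h5
          have h5 := hb a List.mem_cons_self hact
          simp only [if_true] at h5
          simp only [κ, Finset.coe_filter, Finset.mem_image, Finset.mem_filter, Finset.mem_univ,
            true_and, Set.mem_ofPred_eq, S]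
          exact ⟨⟨f', hk, rfl⟩, ⟨f', rfl⟩, h5⟩
        · intro f1 hf1 f2 hf2 h12
          obtain ⟨hp1, _⟩ := hf1
          obtain ⟨hp2, _⟩ := hf2
          refine hinj a List.mem_cons_self f1 f2 (hp1.trans hp2.symm) ?_ h12
          rw [hp1]
          exact hact
      · have h4 : ((a :: l).filter (fun b => act b (p f))) = l.filter (fun b => act b (p f)) := by
          rw [List.filter_cons]
          simp [hact]
        rw [h4]
        refine le_trans ?_ (h2 f)
        refine Set.ncard_le_ncard ?_ (Set.toFinite _)
        rintro f' ⟨hp, hb⟩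
        refine ⟨hp, fun b hbl hactb => ?_⟩
        have h5 := hb b (List.mem_cons_of_mem _ hbl) hactb
        have hne : b ≠ a := fun h => hal (h ▸ hbl)
        simpa [hne] using h5

end Pool.Agent.H15.SR
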