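import Pool.Agent.H15.SR.Ctr
import Pool.Agent.H15.SR.Greedy

namespace Pool.Agent.H15.SR

private theorem wv_adj {r d T q : ℕ} {α β : Fin d → Fin T} (hαβ : ∀ i, α i ≠ β i)
    (P : Fin d → Bool) (i : Fin d) (hP : P i = false) (z : Cls r d → Fin q) :
    (host r d T q).Adj (wv α β P z) (wv α β (Function.update P i true) z) := by
  refine ⟨i, ?_, ?_, ?_⟩
  · simp only [wv, cell, hP, Function.update_self]
    simpa using hαβ i
  · intro j hj
    simp only [wv, cell, Function.update_of_ne hj]
  · intro e he
    simp only [wv]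
    congr 2
    funext k
    rw [Function.update_of_ne (he k)]

private theorem cell_inj {d T : ℕ} {α β : Fin d → Fin T} (hαβ : ∀ i, α i ≠ β i)
    {P P' : Fin d → Bool} (h : cell α β P = cell α β P') : P = P' := by
  funext i
  have h1 := congrFun h i
  simp only [cell] at h1
  cases h2 : P i <;> cases h3 : P' i <;> simp only [h2, h3] at h1 <;>
    first
    | rfl
    | exact absurd h1 (by simpa using hαβ i)
    | exact absurd h1.symm (by simpa using hαβ i)

open Classical in
private theorem filter_len {r d δ m : ℕ} (ι : Fin δ × Fin m → Fin d) (π : Fin d → Bool)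
    (D : DecidablePred (fun a : Cls r d => Rel ι a.1 ∧ a.2 = fun k => π (a.1 k))) :
    (((Finset.univ.filter (fun a : Cls r d => Rel ι a.1)).toList).filter
      (fun a => decide (Rel ι a.1 ∧ a.2 = fun k => π (a.1 k)))).length =
      Set.ncard {e : Coord r d | Rel ι e} := by
  have h1 : ((((Finset.univ.filter (fun a : Cls r d => Rel ι a.1)).toList).filter
      (fun a => decide (Rel ι a.1 ∧ a.2 = fun k => π (a.1 k)))).toFinset).card =
      (((Finset.univ.filter (fun a : Cls r d => Rel ι a.1)).toList).filter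
      (fun a => decide (Rel ι a.1 ∧ a.2 = fun k => π (a.1 k)))).length :=
    List.toFinset_card_of_nodup ((Finset.nodup_toList _).filter _)
  rw [← h1, Set.ncard_eq_toFinset_card']
  refine Finset.card_bij (fun a _ => a.1) ?_ ?_ ?_
  · intro a ha
    simp only [List.mem_toFinset, List.mem_filter, decide_eq_true_eq] at ha
    simpa using ha.2.1
  · intro a ha a' ha' haa
    simp only [List.mem_toFinset, List.mem_filter, decide_eq_true_eq] at ha ha'
    refine Prod.ext haa ?_
    rw [ha.2.2, ha'.2.2, haa]
  · intro e he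
    have he' : Rel ι e := by simpa using he
    refine ⟨(e, fun k => π (e k)), ?_, rfl⟩
    simp only [List.mem_toFinset, List.mem_filter, decide_eq_true_eq, Finset.mem_toList,
      Finset.mem_filter, Finset.mem_univ, true_and]
    exact ⟨he', he', trivial⟩

open Classical in
/-- The embedding. -/
theorem embed {r d T q k δ m n : ℕ} (hq : 0 < q) (hm : 0 < m) (Q Q₀ : ℕ) (hQ : (2 * m) ^ δ * Q₀ < Q)
    (c : Sym2 (HV r d T q) → Fin k) (α β : Fin d → Fin T) (hαβ : ∀ i, α i ≠ β i)
    (χ : Fin d → Fin k) (b : Fin k) (ι : Fin δ × Fin m → Fin d) (hι : Function.Injective ι)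
    (hχ : ∀ x, χ (ι x) = b) (η : Cls r d → Fin q)
    (hR : Robust ((2 * m) ^ δ) Q
      ((Finset.univ.filter (fun a : Cls r d => Rel ι a.1)).toList)
      (fun z : Cls r d → Fin q => GoodT c α β χ (fun a => if Rel ι a.1 then z a else η a)))
    (hn : n ^ δ ≤ Q₀ ^ (Set.ncard {e : Coord r d | Rel ι e})) :
    ∃ Φ : (Fin δ → Fin n) → HV r d T q, Function.Injective Φ ∧
      ∀ f g, (gridG δ n).Adj f g → (host r d T q).Adj (Φ f) (Φ g) ∧ c s(Φ f, Φ g) = b := by
  obtain ⟨φ, hφ1, hφ2⟩ := greedy (Λ := Cls r d) (F := Fin δ → Fin n) (Sy := Fin r → ℕ)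
    (Pt := Fin d → Bool) hq ((2 * m) ^ δ) Q Q₀ (Set.ncard {e : Coord r d | Rel ι e}) hQ
    (sy ι) (Pv ι) (fun a P => Rel ι a.1 ∧ a.2 = fun k => P (a.1 k))
    ((Finset.univ.filter (fun a : Cls r d => Rel ι a.1)).toList)
    (Finset.nodup_toList _)
    (by
      intro a ha s
      have ha' : Rel ι a.1 := by simpa using ha
      exact site_fiber hι ha' a.2 s)
    (by
      intro a ha f f' hp hact hs
      obtain ⟨h1, h2⟩ := hact
      obtain ⟨e, ε⟩ := a
      simp only at h1 h2
      subst h2
      exact site_inj hι h1 hp hs)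
    (by
      intro π
      exact (filter_len ι π _).le)
    (by
      intro π
      refine le_trans ?_ hn
      refine le_trans (Set.ncard_le_ncard (Set.subset_univ _)) ?_
      rw [Set.ncard_univ]
      simp)
    (fun z : Cls r d → Fin q => GoodT c α β χ (fun a => if Rel ι a.1 then z a else η a)) hR
  set z : (Fin δ → Fin n) → Cls r d → Fin q :=
    fun f a => if Rel ι a.1 then φ a (sy ι a f) else η a with hz
  have hgood : ∀ f, GoodT c α β χ (z f) := hφ1
  -- the crucial identity along a step
  have hstep : ∀ f g : Fin δ → Fin n, ∀ j, (∀ i, i ≠ j → f i = g i) → (f j : ℕ) + 1 = g j →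
      wv α β (Pv ι g) (z g) = wv α β (Pv ι g) (z f) := by
    intro f g j h1 h2
    simp only [wv, hz]
    refine Prod.ext rfl ?_
    funext e
    simp only
    split_ifs with he
    · congr 1
      funext k
      simp only [sy]
      rw [up_step hι hm h1 h2]
      exact up_par _
    · rfl
  have hadj : ∀ f g : Fin δ → Fin n, ∀ j, (∀ i, i ≠ j → f i = g i) → (f j : ℕ) + 1 = g j →
      (host r d T q).Adj (wv α β (Pv ι f) (z f)) (wv α β (Pv ι g) (z g)) ∧
        c s(wv α β (Pv ι f) (z f), wv α β (Pv ι g) (z g)) = b := by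
    intro f g j h1 h2
    rw [hstep f g j h1 h2]
    obtain ⟨x, hx1, hx2⟩ := ctr_step hι hm h1 h2
    have hPx : Pv ι g (ι x) = !(Pv ι f (ι x)) := by
      simp only [Pv]
      rw [hx1]
      exact par_succ _
    have hPo : ∀ i, i ≠ ι x → Pv ι g i = Pv ι f i := by
      intro i hi
      simp only [Pv]
      rw [hx2 i hi]
    cases hf : Pv ι f (ι x)
    · have hg : Pv ι g = Function.update (Pv ι f) (ι x) true := by
        funext i
        by_cases hi : i = ι x
        · subst hi
          rw [Function.update_self, hPx, hf]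
          rfl
        · rw [Function.update_of_ne hi, hPo i hi]
      rw [hg]
      refine ⟨wv_adj hαβ _ _ hf _, ?_⟩
      rw [hgood f (ι x) (Pv ι f) hf, hχ]
    · have hgf : Pv ι g (ι x) = false := by
        rw [hPx, hf]
        rfl
      have hg : Pv ι f = Function.update (Pv ι g) (ι x) true := by
        funext i
        by_cases hi : i = ι x
        · subst hi
          rw [Function.update_self, hf]
        · rw [Function.update_of_ne hi, hPo i hi]
      have h3 := wv_adj (r := r) (q := q) hαβ (Pv ι g) (ι x) hgf (z f)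
      have h4 := hgood f (ι x) (Pv ι g) hgf
      rw [← hg] at h3 h4
      refine ⟨h3.symm, ?_⟩
      rw [Sym2.eq_swap, h4, hχ]
  refine ⟨fun f => wv α β (Pv ι f) (z f), ?_, ?_⟩
  · intro f f' hff
    simp only [wv] at hff
    have h1 : Pv ι f = Pv ι f' := cell_inj hαβ (congrArg Prod.fst hff)
    have h2 := congrArg Prod.snd hff
    simp only at h2
    have h3 := hφ2 f
    have hlen := filter_len ι (Pv ι f)
      (fun a : Cls r d => Classical.propDecidable (Rel ι a.1 ∧ a.2 = fun k => Pv ι f (a.1 k)))
    replace h3 := le_trans h3 (le_of_eq (congrArg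
      (fun t => Q₀ ^ (Set.ncard {e : Coord r d | Rel ι e} - t)) hlen))
    rw [Nat.sub_self, pow_zero] at h3
    rw [Set.ncard_le_one_iff] at h3
    refine h3 ?_ ?_
    · exact ⟨rfl, fun a _ _ => rfl⟩
    · refine ⟨h1.symm, ?_⟩
      intro a _ hact
      obtain ⟨e, ε⟩ := a
      obtain ⟨he, hε⟩ := hact
      simp only at he hε
      have h4 := congrFun h2 e
      simp only [hz] at h4
      rw [if_pos he, if_pos he] at h4
      rw [← h1, ← hε] at h4
      exact h4.symm
  · rintro f g ⟨j, h1, h2 | h2⟩
    · exact hadj f g j h1 h2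
    · have h3 := hadj g f j (fun i hi => (h1 i hi).symm) h2
      refine ⟨h3.1.symm, ?_⟩
      rw [Sym2.eq_swap]
      exact h3.2

end Pool.Agent.H15.SR
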