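import Pool.Agent.H15.SR.Main

/-!
# SR.Final: the set in the definition of the size Ramsey number is nonempty, existence form of the bound
-/

namespace Pool.Agent.H15.SR

theorem arrows_transport {V W : Type} [Finite V] (k : ℕ) (G : SimpleGraph V) (H : SimpleGraph W)
    (h : Arrows k G H) : ∃ (N : ℕ) (G' : SimpleGraph (Fin N)), Arrows k G' H := by
  obtain ⟨e⟩ : Nonempty (V ≃ Fin (Nat.card V)) := ⟨Finite.equivFin V⟩
  refine ⟨Nat.card V, G.comap e.symm, ?_⟩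
  intro c
  obtain ⟨b, f, hf, hfb⟩ := h (fun s => c (s.map e))
  refine ⟨b, fun x => e (f x), e.injective.comp hf, fun x y hxy => ?_⟩
  obtain ⟨h1, h2⟩ := hfb x y hxy
  refine ⟨?_, ?_⟩
  · simpa using h1
  · simpa using h2

/-- Every grid is arrowed by some finite graph. -/
theorem exists_arrows (k δ : ℕ) (hk : 0 < k) (hδ : 0 < δ) (n : ℕ) :
    ∃ (N : ℕ) (G : SimpleGraph (Fin N)), Arrows k G (gridG δ n) := by
  obtain ⟨r, m, K, hr, hm, hK, hpos, hle⟩ := params k δ hk hδ 1 one_pos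
  obtain ⟨T, u₀, hu₀⟩ := host_arrows k δ r m K hk hδ hm hK
  have hlt : δ * (k * δ * m - m) ^ r < (k * δ * m) ^ r := by
    have h1 : ((δ * (k * δ * m - m) ^ r : ℕ) : ℝ) < (((k * δ * m) ^ r : ℕ) : ℝ) := by
      push_cast at hpos ⊢
      linarith
    exact_mod_cast h1
  have hE : 0 < (k * δ * m) ^ r - δ * (k * δ * m - m) ^ r := by omega
  refine arrows_transport k _ _ (hu₀ (max u₀ (n ^ δ + 1)) (le_max_left _ _) n ?_)
  have h2 : n ^ δ ≤ max u₀ (n ^ δ + 1) := (Nat.le_succ _).trans (le_max_right _ _)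
  refine h2.trans ?_
  rw [← pow_mul]
  refine Nat.le_self_pow ?_ _
  exact (Nat.mul_pos (by omega) hE).ne'

/-- The existence form of the bound. -/
theorem main_exists (k δ : ℕ) (hk : 0 < k) (hδ : 0 < δ) (ε : ℝ) (hε : 0 < ε) :
    ∃ C : ℝ, 0 < C ∧ ∀ n : ℕ, 1 ≤ n → ∃ (N : ℕ) (G : SimpleGraph (Fin N)),
      Arrows k G (gridG δ n) ∧ (G.edgeSet.ncard : ℝ) ≤ C * (n : ℝ) ^ ((δ : ℝ) + ε) := by
  obtain ⟨C, hC, h⟩ := main k δ hk hδ ε hε
  refine ⟨C, hC, fun n hn => ?_⟩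
  have hne : {e : ℕ | ∃ (N : ℕ) (G : SimpleGraph (Fin N)), G.edgeSet.ncard = e ∧
      Arrows k G (gridG δ n)}.Nonempty := by
    obtain ⟨N, G, hG⟩ := exists_arrows k δ hk hδ n
    exact ⟨_, N, G, rfl, hG⟩
  obtain ⟨N, G, h1, h2⟩ := Nat.sInf_mem hne
  refine ⟨N, G, h2, ?_⟩
  have h3 := h n hn
  unfold sizeRamsey at h3
  rw [h1]
  exact h3

end Pool.Agent.H15.SR
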