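import Mathlib

namespace Pool.Agent.H15.SR

/-- Pigeonhole on colours: among `k * N` types some colour occurs at least `N` times; written with an injection. -/
theorem exists_iota (k δ m : ℕ) (hk : 0 < k) (χ : Fin (k * δ * m) → Fin k) :
    ∃ (b : Fin k) (ι : Fin δ × Fin m → Fin (k * δ * m)), Function.Injective ι ∧ ∀ x, χ (ι x) = b := by
  have : Nonempty (Fin k) := ⟨⟨0, hk⟩⟩
  obtain ⟨b, hb⟩ := Fintype.exists_le_card_fiber_of_mul_le_card (f := χ) (n := δ * m)
    (by simp [mul_assoc])
  have h1 : Fintype.card (Fin δ × Fin m) ≤ Fintype.card {x // χ x = b} := by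
    rw [Fintype.card_subtype, Fintype.card_prod, Fintype.card_fin, Fintype.card_fin]
    exact hb
  obtain ⟨φ⟩ := Function.Embedding.nonempty_of_card_le h1
  exact ⟨b, fun x => (φ x : Fin (k * δ * m)), fun x y h => φ.injective (Subtype.ext h),
    fun x => (φ x).2⟩


end Pool.Agent.H15.SR
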