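import Mathlib

namespace Pool.Agent.H15.SR

/-- Fixing the coordinates outside `R` without losing density.  Average over `η`:
`(z, η) ↦ (mix z η, mix η z)` is a bijection of pairs. -/
theorem exists_section {Λ : Type} [Fintype Λ] [DecidableEq Λ] {q : ℕ} (hq : 0 < q) (R : Λ → Prop)
    [DecidablePred R] (G : (Λ → Fin q) → Prop) (c : ℝ)
    (hG : c * (q : ℝ) ^ Fintype.card Λ ≤ Set.ncard {x | G x}) :
    ∃ η : Λ → Fin q, c * (q : ℝ) ^ Fintype.card Λ ≤
      Set.ncard {z : Λ → Fin q | G (fun a => if R a then z a else η a)} := by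
  classical
  have : Nonempty (Fin q) := ⟨⟨0, hq⟩⟩
  have h1 : (Finset.univ.filter (fun p : (Λ → Fin q) × (Λ → Fin q) =>
      G (fun a => if R a then p.1 a else p.2 a))).card =
      (Finset.univ.filter (fun p : (Λ → Fin q) × (Λ → Fin q) => G p.1)).card := by
    refine Finset.card_bijective (fun p : (Λ → Fin q) × (Λ → Fin q) =>
      ((fun a => if R a then p.1 a else p.2 a), fun a => if R a then p.2 a else p.1 a)) ?_ ?_
    · apply Function.Involutive.bijective
      intro p
      ext a <;> simp only <;> split_ifs <;> rfl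
    · intro p
      simp
  have h2 : (Finset.univ.filter (fun p : (Λ → Fin q) × (Λ → Fin q) => G p.1)).card =
      (Finset.univ.filter (fun x : Λ → Fin q => G x)).card * Fintype.card (Λ → Fin q) := by
    rw [← Finset.card_univ, ← Finset.card_product]
    congr 1
    ext p
    simp
  have h3 : (Finset.univ.filter (fun p : (Λ → Fin q) × (Λ → Fin q) =>
      G (fun a => if R a then p.1 a else p.2 a))).card =
      ∑ η : Λ → Fin q, (Finset.univ.filter (fun z : Λ → Fin q =>
        G (fun a => if R a then z a else η a))).card := by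
    simp only [Finset.card_filter]
    rw [Fintype.sum_prod_type_right]
  have h4 : ∑ _η : Λ → Fin q, (Finset.univ.filter (fun x : Λ → Fin q => G x)).card ≤
      ∑ η : Λ → Fin q, (Finset.univ.filter (fun z : Λ → Fin q =>
        G (fun a => if R a then z a else η a))).card := by
    rw [← h3, h1, h2, Finset.sum_const, Finset.card_univ, smul_eq_mul, mul_comm]
  obtain ⟨η, _, hη⟩ := Finset.exists_le_of_sum_le Finset.univ_nonempty h4
  refine ⟨η, hG.trans ?_⟩
  have h5 : ∀ P : (Λ → Fin q) → Prop, Set.ncard {x | P x} = (Finset.univ.filter (fun x => P x)).card := by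
    intro P
    rw [← Set.ncard_coe_finset]
    congr 1
    ext x
    simp
  rw [h5, h5]
  exact_mod_cast hη

end Pool.Agent.H15.SR
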