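import Pool.Agent.H15.SR.Occ
import Pool.Agent.H15.SR.Dense
import Pool.Agent.H15.SR.Drc
import Pool.Agent.H15.SR.Section
import Pool.Agent.H15.SR.Embed
import Pool.Agent.H15.SR.Iota

namespace Pool.Agent.H15.SR

open Classical in
/-- The host arrows the grid for all large `u`. -/
theorem host_arrows (k δ r m K : ℕ) (hk : 0 < k) (hδ : 0 < δ) (hm : 0 < m) (hK : 3 ≤ K) :
    ∃ T u₀ : ℕ, ∀ u : ℕ, u₀ ≤ u → ∀ n : ℕ,
      n ^ δ ≤ (u ^ (K - 2)) ^ ((k * δ * m) ^ r - δ * (k * δ * m - m) ^ r) →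
      Arrows k (host r (k * δ * m) T (u ^ K)) (gridG δ n) := by
  obtain ⟨T, c₀, hc₀, hdense⟩ := exists_dense r (k * δ * m) k
  have hrob := fun ι : Fin δ × Fin m → Fin (k * δ * m) =>
    robust_of_dense ((2 * m) ^ δ) K (by omega)
      ((Finset.univ.filter (fun a : Cls r (k * δ * m) => Rel ι a.1)).toList) c₀ hc₀
  choose U hU using hrob
  refine ⟨T, (Finset.univ.sup U) + (2 * m) ^ δ + 1, ?_⟩
  intro u hu n hn c
  have hupos : 0 < u := by omega
  have hqpos : 0 < u ^ K := Nat.pow_pos hupos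
  obtain ⟨α, β, hαβ, χ, hd⟩ := hdense (u ^ K) hqpos c
  obtain ⟨b, ι, hι, hχ⟩ := exists_iota k δ m hk χ
  obtain ⟨η, hη⟩ := exists_section hqpos (fun a : Cls r (k * δ * m) => Rel ι a.1)
    (fun z => GoodT c α β χ z) c₀ hd
  have hUι : U ι ≤ u := by
    have := Finset.le_sup (f := U) (Finset.mem_univ ι)
    omega
  have hR := hU ι u hUι
    (fun z : Cls r (k * δ * m) → Fin (u ^ K) =>
      GoodT c α β χ (fun a => if Rel ι a.1 then z a else η a))
    (by
      intro a ha x w
      have hna : ¬ Rel ι a.1 := by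
        intro h
        apply ha
        simp [h]
      have : (fun a' : Cls r (k * δ * m) => if Rel ι a'.1 then Function.update x a w a' else η a')
          = (fun a' => if Rel ι a'.1 then x a' else η a') := by
        funext a'
        by_cases h : Rel ι a'.1
        · have hne : a' ≠ a := by
            rintro rfl
            exact hna h
          simp [h, Function.update_of_ne hne]
        · simp [h]
      rw [this])
    hη
  have hQ : (2 * m) ^ δ * u ^ (K - 2) < u ^ (K - 1) := by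
    have h1 : u ^ (K - 1) = u * u ^ (K - 2) := by
      rw [← pow_succ']
      congr 1
      omega
    rw [h1]
    exact Nat.mul_lt_mul_of_pos_right (by omega) (Nat.pow_pos hupos)
  have hn' : n ^ δ ≤ (u ^ (K - 2)) ^ (Set.ncard {e : Coord r (k * δ * m) | Rel ι e}) := by
    refine hn.trans (Nat.pow_le_pow_right (Nat.pow_pos hupos) ?_)
    have := card_rel (r := r) ι hι
    omega
  obtain ⟨Φ, hΦ, hΦ2⟩ := embed hqpos hm (u ^ (K - 1)) (u ^ (K - 2)) hQ c α β hαβ χ b ι hι hχ η hR hn'
  exact ⟨b, Φ, hΦ, hΦ2⟩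


end Pool.Agent.H15.SR
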