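import Pool.Agent.H15.SR.Occ

namespace Pool.Agent.H15.SR

/-- The number of edges of the host.  The map (edge, orientation) to
(first vertex, type `i`, new entry of the cell, new values on the coordinates in which `i` occurs) is injective. -/
theorem host_edges (r d T q : ℕ) (hq : 0 < q) :
    (host r d T q).edgeSet.ncard ≤ T ^ d * q ^ (d ^ r) * (d * T * q ^ (r * d ^ (r - 1))) := by
  classical
  let A := HV r d T q × (Σ i : Fin d, Fin T × ({e : Coord r d // ∃ k, e k = i} → Fin q))
  let f : A → Sym2 (HV r d T q) := fun a =>
    s(a.1, (Function.update a.1.1 a.2.1 a.2.2.1,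
      fun e => if h : ∃ k, e k = a.2.1 then a.2.2.2 ⟨e, h⟩ else a.1.2 e))
  have hsub : (host r d T q).edgeSet ⊆ f '' Set.univ := by
    intro e he
    induction e using Sym2.ind with
    | _ v w =>
      obtain ⟨i, h1, h2, h3⟩ := he
      refine ⟨(v, ⟨i, (w.1 i, fun e => w.2 e.1)⟩), Set.mem_univ _, ?_⟩
      have e1 : Function.update v.1 i (w.1 i) = w.1 := by
        funext j
        by_cases hj : j = i
        · subst hj
          simp
        · rw [Function.update_of_ne hj]
          exact h2 j hj
      have e2 : (fun e : Coord r d => if h : ∃ k, e k = i then w.2 e else v.2 e) = w.2 := by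
        funext e
        by_cases h : ∃ k, e k = i
        · simp [h]
        · simp only [h, dite_false]
          exact h3 e (fun k hk => h ⟨k, hk⟩)
      show s(v, (Function.update v.1 i (w.1 i),
        fun e : Coord r d => if h : ∃ k, e k = i then w.2 e else v.2 e)) = s(v, w)
      rw [e1, e2]
  have h1 : (host r d T q).edgeSet.ncard ≤ Fintype.card A := by
    calc (host r d T q).edgeSet.ncard ≤ (f '' Set.univ).ncard :=
          Set.ncard_le_ncard hsub (Set.toFinite _)
      _ ≤ (Set.univ : Set A).ncard := Set.ncard_image_le (Set.toFinite _)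
      _ = Fintype.card A := by rw [Set.ncard_univ, Nat.card_eq_fintype_card]
  refine h1.trans ?_
  have h2 : Fintype.card A = T ^ d * q ^ (d ^ r) *
      ∑ i : Fin d, T * q ^ Fintype.card {e : Coord r d // ∃ k, e k = i} := by
    simp [A, Fintype.card_prod, Fintype.card_sigma]
  rw [h2]
  refine Nat.mul_le_mul_left _ ?_
  calc ∑ i : Fin d, T * q ^ Fintype.card {e : Coord r d // ∃ k, e k = i}
      ≤ ∑ _i : Fin d, T * q ^ (r * d ^ (r - 1)) := by
        refine Finset.sum_le_sum fun i _ => Nat.mul_le_mul_left _ (Nat.pow_le_pow_right hq ?_)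
        have h3 := card_occ r d i
        rw [← Nat.card_coe_set_eq, Nat.card_eq_fintype_card] at h3
        exact h3
    _ = d * T * q ^ (r * d ^ (r - 1)) := by
        simp [mul_assoc]


end Pool.Agent.H15.SR
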