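import Mathlib

/-!
# SR.Params: choice of the parameters (section 7)

With `d = k * δ * m` one has `(d - m) ^ r = (1 - 1/(k δ)) ^ r * d ^ r`.  Choose `r` with
`δ (1 - 1/(kδ))^r` small, then `m` with `r / d` small, then `K` large.
-/

namespace Pool.Agent.H15.SR

theorem params (k δ : ℕ) (hk : 0 < k) (hδ : 0 < δ) (ε : ℝ) (hε : 0 < ε) :
    ∃ r m K : ℕ, 0 < r ∧ 0 < m ∧ 3 ≤ K ∧
      0 < (((k * δ * m : ℕ) : ℝ) ^ r - δ * ((k * δ * m - m : ℕ) : ℝ) ^ r) ∧
      (K : ℝ) * (((k * δ * m : ℕ) : ℝ) ^ r + r * ((k * δ * m : ℕ) : ℝ) ^ (r - 1)) * δ ≤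
        (δ + ε) * (((K : ℝ) - 2) * (((k * δ * m : ℕ) : ℝ) ^ r - δ * ((k * δ * m - m : ℕ) : ℝ) ^ r)) := by
  have hδR : (0 : ℝ) < δ := by exact_mod_cast hδ
  have hkR : (0 : ℝ) < k := by exact_mod_cast hk
  have hkδ : 0 < k * δ := Nat.mul_pos hk hδ
  have hkδR : (0 : ℝ) < k * δ := by positivity
  have hkδ1 : (1 : ℝ) ≤ k * δ := by exact_mod_cast hkδ
  set η : ℝ := ε / (3 * δ + 2 * ε) with hη
  have hden : (0 : ℝ) < 3 * δ + 2 * ε := by positivity
  have hη0 : 0 < η := by positivity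
  have hη1 : η * (3 * δ + 2 * ε) = ε := by rw [hη]; field_simp
  have hη2 : η < 1 := by
    rw [hη, div_lt_one hden]; linarith
  set ρ : ℝ := 1 - 1 / (k * δ) with hρ
  have hρ0 : 0 ≤ ρ := by
    rw [hρ]
    have : 1 / ((k : ℝ) * δ) ≤ 1 := by rw [div_le_one hkδR]; exact hkδ1
    linarith
  have hρ1 : ρ < 1 := by
    rw [hρ]
    have : 0 < 1 / ((k : ℝ) * δ) := by positivity
    linarith
  obtain ⟨n, hn⟩ := exists_pow_lt_of_lt_one (show 0 < η / δ by positivity) hρ1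
  set r : ℕ := n + 1 with hr
  have hrρ : ρ ^ r < η / δ := by
    have : ρ ^ (n + 1) ≤ ρ ^ n := pow_le_pow_of_le_one hρ0 hρ1.le (Nat.le_succ n)
    rw [hr]; linarith
  have hb : δ * ρ ^ r < η := by
    rw [lt_div_iff₀ hδR] at hrρ; linarith
  obtain ⟨m, hm⟩ := exists_nat_gt ((r : ℝ) / η)
  have hrpos : (0 : ℝ) < r := by rw [hr]; positivity
  have hmR : (0 : ℝ) < m := lt_trans (by positivity) hm
  have hmN : 0 < m := by exact_mod_cast hmR
  obtain ⟨K, hK⟩ := exists_nat_gt (3 + 2 / η)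
  have h2η : 0 < 2 / η := by positivity
  have hK3 : 3 ≤ K := by
    have : (3 : ℝ) ≤ K := by linarith
    exact_mod_cast this
  have hKη : 2 ≤ K * η := by
    have : 2 / η < K := by linarith
    rw [div_lt_iff₀ hη0] at this; linarith
  have hKR : (0 : ℝ) < K := by linarith
  have hrη : (r : ℝ) ≤ η * m := by
    rw [div_lt_iff₀ hη0] at hm; linarith
  set d : ℝ := ((k * δ * m : ℕ) : ℝ) with hd
  have hd' : d = k * δ * m := by rw [hd]; push_cast; ring
  have hdpos : 0 < d := by rw [hd']; positivity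
  have hmd : (m : ℝ) ≤ d := by
    rw [hd']; nlinarith
  have hcast : ((k * δ * m - m : ℕ) : ℝ) = d * ρ := by
    have hle : m ≤ k * δ * m := Nat.le_mul_of_pos_left m hkδ
    rw [Nat.cast_sub hle, hρ, hd']
    push_cast
    field_simp
  have hP : 0 < d ^ r := by positivity
  have hdr : d ^ r = d ^ (r - 1) * d := by
    rw [hr, Nat.add_sub_cancel, pow_succ]
  have hdr1 : 0 < d ^ (r - 1) := by positivity
  have hrd : (r : ℝ) * d ^ (r - 1) ≤ η * d ^ r := by
    rw [hdr]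
    have : (r : ℝ) ≤ η * d := hrη.trans (mul_le_mul_of_nonneg_left hmd hη0.le)
    calc (r : ℝ) * d ^ (r - 1) ≤ (η * d) * d ^ (r - 1) :=
          mul_le_mul_of_nonneg_right this hdr1.le
      _ = η * (d ^ (r - 1) * d) := by ring
  refine ⟨r, m, K, Nat.succ_pos n, hmN, hK3, ?_, ?_⟩
  · rw [hcast, mul_pow]
    have : δ * (d ^ r * ρ ^ r) < d ^ r := by
      calc δ * (d ^ r * ρ ^ r) = (δ * ρ ^ r) * d ^ r := by ring
        _ < 1 * d ^ r := mul_lt_mul_of_pos_right (hb.trans hη2) hP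
        _ = d ^ r := one_mul _
    linarith
  · rw [hcast, mul_pow]
    have h1 : (K : ℝ) * (d ^ r + r * d ^ (r - 1)) * δ ≤ K * ((1 + η) * d ^ r) * δ := by
      apply mul_le_mul_of_nonneg_right _ hδR.le
      apply mul_le_mul_of_nonneg_left _ hKR.le
      linarith
    have h2 : (1 - η) * d ^ r ≤ d ^ r - δ * (d ^ r * ρ ^ r) := by
      have : (δ * ρ ^ r) * d ^ r ≤ η * d ^ r := mul_le_mul_of_nonneg_right hb.le hP.le
      nlinarith
    have h3 : (1 - η) * K ≤ K - 2 := by linarith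
    have h4 : (1 - η) * K * ((1 - η) * d ^ r) ≤ (K - 2) * (d ^ r - δ * (d ^ r * ρ ^ r)) := by
      apply mul_le_mul h3 h2
      · have : 0 < 1 - η := by linarith
        positivity
      · have : (3 : ℝ) ≤ K := by exact_mod_cast hK3
        linarith
    have h5 : (1 + η) * δ ≤ (δ + ε) * ((1 - η) * (1 - η)) := by
      nlinarith [sq_nonneg η, mul_pos hδR hε, mul_pos hη0 hη0, mul_pos (mul_pos hη0 hη0) hε, mul_pos (mul_pos hη0 hη0) hδR]
    calc (K : ℝ) * (d ^ r + r * d ^ (r - 1)) * δ ≤ K * ((1 + η) * d ^ r) * δ := h1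
      _ = ((1 + η) * δ) * (K * d ^ r) := by ring
      _ ≤ ((δ + ε) * ((1 - η) * (1 - η))) * (K * d ^ r) :=
          mul_le_mul_of_nonneg_right h5 (by positivity)
      _ = (δ + ε) * ((1 - η) * K * ((1 - η) * d ^ r)) := by ring
      _ ≤ (δ + ε) * ((K - 2) * (d ^ r - δ * (d ^ r * ρ ^ r))) :=
          mul_le_mul_of_nonneg_left h4 (by positivity)

end Pool.Agent.H15.SR
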