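import Mathlib

namespace Pool.Agent.H15.SR

/-- From a bound along powers of `u` to a bound in `n`: `A` and `D` are exponents with `A * δ ≤ (δ + ε) * D`. -/
theorem pow_bound (A D δ u₀ : ℕ) (hD : 0 < D) (hδ : 0 < δ) (ε : ℝ) (hε : 0 < ε)
    (hAD : (A : ℝ) * δ ≤ (δ + ε) * D) :
    ∃ C : ℝ, 0 < C ∧ ∀ n : ℕ, 1 ≤ n → ∃ u : ℕ, u₀ ≤ u ∧ n ^ δ ≤ u ^ D ∧
      ((u ^ A : ℕ) : ℝ) ≤ C * (n : ℝ) ^ ((δ : ℝ) + ε) := by
  refine ⟨((u₀ : ℝ) + 2) ^ A, by positivity, fun n hn => ?_⟩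
  have hn1 : (1 : ℝ) ≤ n := by exact_mod_cast hn
  have hn0 : (0 : ℝ) ≤ n := by linarith
  have hD' : (0 : ℝ) < D := by exact_mod_cast hD
  set x : ℝ := (n : ℝ) ^ ((δ : ℝ) / D) with hx
  have hx1 : 1 ≤ x := Real.one_le_rpow hn1 (by positivity)
  have hxc : x ≤ (⌈x⌉₊ : ℝ) := Nat.le_ceil x
  have hxc2 : (⌈x⌉₊ : ℝ) < x + 1 := Nat.ceil_lt_add_one (by linarith)
  refine ⟨u₀ + ⌈x⌉₊, by omega, ?_, ?_⟩
  · have h1 : ((n ^ δ : ℕ) : ℝ) ≤ (((u₀ + ⌈x⌉₊) ^ D : ℕ) : ℝ) := by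
      push_cast
      have h2 : x ^ D = (n : ℝ) ^ δ := by
        rw [hx, ← Real.rpow_natCast, ← Real.rpow_mul hn0, div_mul_cancel₀ _ hD'.ne',
          Real.rpow_natCast]
      rw [← h2]
      refine pow_le_pow_left₀ (by linarith) ?_ D
      have : (0 : ℝ) ≤ u₀ := Nat.cast_nonneg _
      linarith
    exact_mod_cast h1
  · push_cast
    have h0 : (0 : ℝ) ≤ u₀ := Nat.cast_nonneg _
    have h3 : (u₀ : ℝ) + ⌈x⌉₊ ≤ (u₀ + 2) * x := by nlinarith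
    calc ((u₀ : ℝ) + ⌈x⌉₊) ^ A ≤ (((u₀ : ℝ) + 2) * x) ^ A :=
          pow_le_pow_left₀ (by positivity) h3 A
      _ = ((u₀ : ℝ) + 2) ^ A * x ^ A := mul_pow _ _ _
      _ ≤ ((u₀ : ℝ) + 2) ^ A * (n : ℝ) ^ ((δ : ℝ) + ε) := by
          refine mul_le_mul_of_nonneg_left ?_ (by positivity)
          rw [hx, ← Real.rpow_natCast, ← Real.rpow_mul hn0]
          refine Real.rpow_le_rpow_of_exponent_le hn1 ?_
          rw [div_mul_eq_mul_div, div_le_iff₀ hD']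
          linarith

end Pool.Agent.H15.SR
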