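import Pool.Agent.H15.SR.Defs

namespace Pool.Agent.H15.SR

/-- Transport to `Fin N`. -/
theorem sizeRamsey_le {V W : Type} [Finite V] (k : ℕ) (G : SimpleGraph V) (H : SimpleGraph W)
    (h : Arrows k G H) : sizeRamsey k H ≤ G.edgeSet.ncard := by
  obtain ⟨e⟩ : Nonempty (V ≃ Fin (Nat.card V)) := ⟨Finite.equivFin V⟩
  refine Nat.sInf_le ⟨Nat.card V, G.comap e.symm, ?_, ?_⟩
  · have hiso : G.comap e.symm ≃g G := ⟨e.symm, by intro a b; rfl⟩
    rw [← Nat.card_coe_set_eq, ← Nat.card_coe_set_eq]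
    exact Nat.card_congr hiso.mapEdgeSet
  · intro c
    obtain ⟨b, f, hf, hfb⟩ := h (fun s => c (s.map e))
    refine ⟨b, fun x => e (f x), e.injective.comp hf, fun x y hxy => ?_⟩
    obtain ⟨h1, h2⟩ := hfb x y hxy
    refine ⟨?_, ?_⟩
    · simpa using h1
    · simpa using h2

end Pool.Agent.H15.SR
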