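import Pool.Agent.H15.SR.HostArrows
import Pool.Agent.H15.SR.HostEdges
import Pool.Agent.H15.SR.SizeLe
import Pool.Agent.H15.SR.Box
import Pool.Agent.H15.SR.Params
import Pool.Agent.H15.SR.PowBound

namespace Pool.Agent.H15.SR

theorem main (k δ : ℕ) (hk : 0 < k) (hδ : 0 < δ) (ε : ℝ) (hε : 0 < ε) :
    ∃ C : ℝ, 0 < C ∧ ∀ n : ℕ, 1 ≤ n → (sizeRamsey k (gridG δ n) : ℝ) ≤ C * (n : ℝ) ^ ((δ : ℝ) + ε) := by
  obtain ⟨r, m, K, hr, hm, hK, hpos, hle⟩ := params k δ hk hδ ε hε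
  obtain ⟨T, u₀, hu₀⟩ := host_arrows k δ r m K hk hδ hm hK
  obtain ⟨d, hd⟩ : ∃ d : ℕ, d = k * δ * m := ⟨_, rfl⟩
  rw [← hd] at hpos hle hu₀
  obtain ⟨E, hE⟩ : ∃ E : ℕ, E = d ^ r - δ * (d - m) ^ r := ⟨_, rfl⟩
  have hlt : δ * (d - m) ^ r < d ^ r := by
    have h1 : ((δ * (d - m) ^ r : ℕ) : ℝ) < ((d ^ r : ℕ) : ℝ) := by
      push_cast
      linarith
    exact_mod_cast h1
  have hEpos : 0 < E := by omega
  have hER : (E : ℝ) = (d : ℝ) ^ r - δ * ((d - m : ℕ) : ℝ) ^ r := by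
    rw [hE, Nat.cast_sub hlt.le]
    push_cast
    ring
  have hD : 0 < (K - 2) * E := Nat.mul_pos (by omega) hEpos
  have hAD : ((K * (d ^ r + r * d ^ (r - 1)) : ℕ) : ℝ) * δ ≤ (δ + ε) * (((K - 2) * E : ℕ) : ℝ) := by
    have h2 : (((K - 2) * E : ℕ) : ℝ) = ((K : ℝ) - 2) * ((d : ℝ) ^ r - δ * ((d - m : ℕ) : ℝ) ^ r) := by
      rw [Nat.cast_mul, hER, Nat.cast_sub (by omega)]
      norm_num
    rw [h2]
    push_cast
    exact hle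
  obtain ⟨C, hC, hCn⟩ := pow_bound (K * (d ^ r + r * d ^ (r - 1))) ((K - 2) * E) δ (max u₀ 1) hD hδ ε hε hAD
  refine ⟨((T ^ d * (d * T) : ℕ) + 1) * C, by positivity, fun n hn => ?_⟩
  obtain ⟨u, hu1, hu2, hu3⟩ := hCn n hn
  have hu0 : u₀ ≤ u := (le_max_left _ _).trans hu1
  have hu1' : 0 < u := lt_of_lt_of_le Nat.one_pos ((le_max_right _ _).trans hu1)
  have h3 : Arrows k (host r d T (u ^ K)) (gridG δ n) := by
    refine hu₀ u hu0 n ?_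
    rw [← hE, ← pow_mul]
    exact hu2
  have h4 := (sizeRamsey_le k _ _ h3).trans (host_edges r d T (u ^ K) (pow_pos hu1' _))
  have h5 : T ^ d * (u ^ K) ^ (d ^ r) * (d * T * (u ^ K) ^ (r * d ^ (r - 1))) =
      (T ^ d * (d * T)) * u ^ (K * (d ^ r + r * d ^ (r - 1))) := by
    rw [← pow_mul, ← pow_mul, mul_add, pow_add]
    ring
  rw [h5] at h4
  have h6 : (sizeRamsey k (gridG δ n) : ℝ) ≤
      ((T ^ d * (d * T) : ℕ) : ℝ) * ((u ^ (K * (d ^ r + r * d ^ (r - 1))) : ℕ) : ℝ) := by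
    exact_mod_cast h4
  have h7 : (0 : ℝ) ≤ ((T ^ d * (d * T) : ℕ) : ℝ) := by positivity
  have h8 : (0 : ℝ) ≤ ((u ^ (K * (d ^ r + r * d ^ (r - 1))) : ℕ) : ℝ) := by positivity
  calc (sizeRamsey k (gridG δ n) : ℝ)
      ≤ ((T ^ d * (d * T) : ℕ) : ℝ) * ((u ^ (K * (d ^ r + r * d ^ (r - 1))) : ℕ) : ℝ) := h6
    _ ≤ (((T ^ d * (d * T) : ℕ) : ℝ) + 1) * (C * (n : ℝ) ^ ((δ : ℝ) + ε)) := by
        apply mul_le_mul (by linarith) hu3 h8 (by linarith)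
    _ = (((T ^ d * (d * T) : ℕ) : ℝ) + 1) * C * (n : ℝ) ^ ((δ : ℝ) + ε) := by ring

end Pool.Agent.H15.SR
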