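import Pool.Agent.H15.SR.Defs

namespace Pool.Agent.H15.SR

/-- The type `i` occurs in at most `r * d ^ (r - 1)` coordinates. -/
theorem card_occ (r d : ℕ) (i : Fin d) :
    Set.ncard {e : Coord r d | ∃ k, e k = i} ≤ r * d ^ (r - 1) := by
  classical
  have h1 : {e : Coord r d | ∃ k, e k = i} =
      ((Finset.univ.biUnion fun k : Fin r =>
        Fintype.piFinset (fun j : Fin r => if j = k then ({i} : Finset (Fin d)) else Finset.univ)) :
          Finset (Fin r → Fin d)) := by
    ext e
    simp only [Set.mem_setOf_eq, Finset.coe_biUnion, Finset.coe_univ, Set.mem_univ,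
      Set.iUnion_true, Set.mem_iUnion, Finset.mem_coe, Fintype.mem_piFinset]
    refine exists_congr fun k => ?_
    constructor
    · intro h j
      split_ifs with hj
      · subst hj; simpa using h
      · simp
    · intro h
      simpa using h k
  rw [h1, Set.ncard_coe_finset]
  refine (Finset.card_biUnion_le).trans ?_
  have h2 : ∀ k ∈ (Finset.univ : Finset (Fin r)), (Fintype.piFinset
      (fun j : Fin r => if j = k then ({i} : Finset (Fin d)) else Finset.univ)).card
        ≤ d ^ (r - 1) := by
    intro k _
    rw [Fintype.card_piFinset, ← Finset.mul_prod_erase Finset.univ _ (Finset.mem_univ k)]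
    rw [Finset.prod_congr rfl (g := fun _ => d)]
    · simp
    · intro j hj
      rw [if_neg (Finset.ne_of_mem_erase hj)]
      simp
  refine (Finset.sum_le_card_nsmul _ _ _ h2).trans ?_
  simp

/-- At most `δ * (d - m) ^ r` coordinates are not relevant: `e` avoids the `m`-element set `ι (j, ·)` for some `j`. -/
theorem card_rel {r d δ m : ℕ} (ι : Fin δ × Fin m → Fin d) (hι : Function.Injective ι) :
    d ^ r ≤ Set.ncard {e : Coord r d | Rel ι e} + δ * (d - m) ^ r := by
  classical
  set F : Fin δ → Finset (Fin r → Fin d) := fun j =>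
    Fintype.piFinset (fun _ : Fin r => (Finset.univ.image fun u : Fin m => ι (j, u))ᶜ) with hF
  have h1 : (Set.univ : Set (Coord r d)) ⊆ {e : Coord r d | Rel ι e} ∪
      ((Finset.univ.biUnion F : Finset (Fin r → Fin d)) : Set (Fin r → Fin d)) := by
    intro e _
    by_cases h : Rel ι e
    · exact Or.inl h
    · right
      simp only [Rel, not_forall, not_exists] at h
      obtain ⟨j, hj⟩ := h
      simp only [Finset.coe_biUnion, Finset.coe_univ, Set.mem_univ, Set.iUnion_true,
        Set.mem_iUnion, Finset.mem_coe, hF, Fintype.mem_piFinset]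
      refine ⟨j, fun k => ?_⟩
      simp only [Finset.mem_compl, Finset.mem_image, Finset.mem_univ, true_and, not_exists]
      intro u hu
      exact hj k u hu.symm
  have h2 : (Set.univ : Set (Coord r d)).ncard = d ^ r := by
    rw [Set.ncard_univ]
    simp [Coord]
  have h3 : (Finset.univ.biUnion F).card ≤ δ * (d - m) ^ r := by
    refine (Finset.card_biUnion_le).trans ?_
    have h4 : ∀ j ∈ (Finset.univ : Finset (Fin δ)), (F j).card ≤ (d - m) ^ r := by
      intro j _
      rw [hF]
      simp only
      rw [Fintype.card_piFinset, Finset.prod_const, Finset.card_compl, Fintype.card_fin,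
        Finset.card_image_of_injective _ (fun a b hab => by simpa using hι hab)]
      simp
    refine (Finset.sum_le_card_nsmul _ _ _ h4).trans ?_
    simp
  calc d ^ r = (Set.univ : Set (Coord r d)).ncard := h2.symm
    _ ≤ ({e : Coord r d | Rel ι e} ∪
      ((Finset.univ.biUnion F : Finset (Fin r → Fin d)) : Set (Fin r → Fin d))).ncard :=
        Set.ncard_le_ncard h1 (Set.toFinite _)
    _ ≤ _ := Set.ncard_union_le _ _
    _ ≤ _ := by
      rw [Set.ncard_coe_finset]
      exact Nat.add_le_add_left h3 _

end Pool.Agent.H15.SR
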